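import Pool.Agent.H620R2.GaugeX.Defs

/-!
# Advice of a given length

(Continues `Pool.Agent.H620R2.GaugeX.Defs`.)
-/

namespace Pool.Agent.H620R2.Gauge

open Pool.Agent.NPC

/-- The language `L` is in the class `C` of languages with advice of length at most `g n`: `x` is in
`L` if and only if `⟨x, h |x|⟩` is in `L'`, where `L'` is in `C` and `h n` is a string of length at
most `g n`, for every `n`. -/
def WithAdviceLen (C : Set (List Bool) → Prop) (g : ℕ → ℝ) (L : Set (List Bool)) : Prop :=
  ∃ (L' : Set (List Bool)) (h : ℕ → List Bool), C L' ∧ (∀ n, ((h n).length : ℝ) ≤ g n) ∧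
    ∀ x, x ∈ L ↔ pairBits x (h x.length) ∈ L'

end Pool.Agent.H620R2.Gauge
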