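import Pool.Agent.W2helper58.NX.Gap
import Pool.Agent.W2helper57.NEX.Defs
import Pool.Agent.H620R2.GaugeR.R2
import Pool.Agent.H620R2.Gauge.Upper

/-!
# The gap theorem for linear advice, relative to an oracle

(The unrelativized theorem is in `Pool.Agent.W2helper58.NX.Gap`.)
-/

namespace Pool.Agent.H620R2.Gauge

open Pool.Agent.NPC Pool.Agent.H628R3.RO Pool.Agent.W2helper58.NX

namespace Gp

/-- typed certificates -/
theorem isNEXP_of {A : Oracle} {β : Type} [TEnc β] [TDec β] {L : Set (List Bool)}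
    {R : List Bool × β → Bool} (hR : Poly R) {V1 V2 : List Bool → List Bool} (hV1 : IsFP A V1)
    (hV2 : IsFP A V2) {g1 g2 : List Bool × β → List Bool} (hg1 : Poly g1) (hg2 : Poly g2)
    (q : Polynomial ℕ)
    (h : ∀ x, x ∈ L ↔ ∃ y : β, sz y ≤ 2 ^ q.eval x.length ∧ R (x, y) = true ∧
      V1 (g1 (x, y)) = [true] ∧ V2 (g2 (x, y)) = [true]) : Gauge.IsNEXP A L := by
  have h1 : Poly (fun z => (unpair z).1) := Poly.fst poly_unpair
  have h2 : Poly (fun z => (unpair z).2) := Poly.snd poly_unpair
  have h3 : Poly (fun z => (unpair (unpair z).1).1) := h1.comp h1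
  have h4 : Poly (fun z => unbits β (unpair (unpair z).1).1) := poly_unbits.comp h3
  have h5 : Poly (fun z : List Bool => decide (4 * (unpair (unpair z).1).1.length ≤
      (unpair z).1.length)) :=
    Poly.decide_le (Poly.mul (NPC.Poly.const 4) (Poly.length h3)) (Poly.length h1)
  have h6 : Poly (fun z : List Bool => match unbits β (unpair (unpair z).1).1 with
      | none => false
      | some y => R ((unpair z).2, y)) := by
    refine (Poly.optCases (o := fun z => unbits β (unpair (unpair z).1).1)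
      (g := fun _ => false) (h := fun z y => R ((unpair z).2, y)) h4 (NPC.Poly.const false)
      (hR.comp (Poly.pair (h2.comp (Poly.fst Poly.id)) (Poly.snd Poly.id)))).congr fun z => ?_
    cases unbits β (unpair (unpair z).1).1 <;> rfl
  have hG : ∀ {g : List Bool × β → List Bool}, Poly g → Poly (fun z : List Bool =>
      match unbits β (unpair (unpair z).1).1 with
      | none => ([] : List Bool)
      | some y => g ((unpair z).2, y)) := by
    intro g hg
    refine (Poly.optCases (o := fun z => unbits β (unpair (unpair z).1).1)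
      (g := fun _ => ([] : List Bool)) (h := fun z y => g ((unpair z).2, y)) h4
      (NPC.Poly.const [])
      (hg.comp (Poly.pair (h2.comp (Poly.fst Poly.id)) (Poly.snd Poly.id)))).congr fun z => ?_
    cases unbits β (unpair (unpair z).1).1 <;> rfl
  have k1 := IsFP.precomp hV1 (hG hg1)
  have k2 := IsFP.precomp hV2 (hG hg2)
  have k3 := IsFP.seq (φ := fun q => q.1)
    (ψ := fun q => [(decide (4 * (unpair (unpair q.1).1).1.length ≤ (unpair q.1).1.length) &&
      match unbits β (unpair (unpair q.1).1).1 with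
      | none => false
      | some y => R ((unpair q.1).2, y)) && (decide (q.2.1 = [true]) && decide (q.2.2 = [true]))])
    k1 k2 (Poly.fst Poly.id)
    (Poly.cons (Poly.and ((Poly.and h5 h6).comp (Poly.fst Poly.id))
      (Poly.and (Poly.decide_eq (Poly.fst (Poly.snd Poly.id)) (NPC.Poly.const [true]))
        (Poly.decide_eq (Poly.snd (Poly.snd Poly.id)) (NPC.Poly.const [true]))))
      (NPC.Poly.const []))
  refine ⟨_, q + Polynomial.C 2, k3, fun x => ?_⟩
  rw [h x]
  have hpow : 2 ^ (q + Polynomial.C 2).eval x.length = 4 * 2 ^ q.eval x.length := by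
    rw [Polynomial.eval_add, Polynomial.eval_C, pow_add]
    ring
  constructor
  · rintro ⟨y, hy, hRy, hy1, hy2⟩
    have hpos : 1 ≤ 2 ^ q.eval x.length := Nat.one_le_two_pow
    refine ⟨pairBits (bits y) (List.replicate (4 * 2 ^ q.eval x.length - (2 * sz y + 1)) false),
      ?_, ?_⟩
    · rw [hpow, length_pairBits, bits_length, List.length_replicate]
      omega
    · simp only [unpair_pairBits, unbits_bits, hRy, hy1, hy2, Bool.and_true, List.cons.injEq,
        and_true, decide_eq_true_eq, length_pairBits, bits_length, List.length_replicate,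
        decide_true]
      omega
  · rintro ⟨w, hw, hV⟩
    simp only [unpair_pairBits, List.cons.injEq, and_true, Bool.and_eq_true,
      decide_eq_true_eq] at hV
    obtain ⟨⟨hV1, hV2⟩, hV3, hV4⟩ := hV
    cases hy : unbits β (unpair w).1 with
    | none => rw [hy] at hV2; simp at hV2
    | some y =>
      rw [hy] at hV2 hV3 hV4
      refine ⟨y, ?_, hV2, hV3, hV4⟩
      have e1 := bits_of_unbits hy
      rw [← bits_length y, e1]
      rw [hw, hpow] at hV1
      omega

/-- the length of the certificate is right -/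
def lenOk (p : Polynomial ℕ) (x w : List Bool) : Bool := decide (w.length = 2 ^ p.eval x.length)

theorem p_lenOk (p : Polynomial ℕ) {α : Type} [TEnc α] {x w : α → List Bool} (hx : Poly x)
    (hw : Poly w) : Poly (fun a => lenOk p (x a) (w a)) :=
  Poly.decide_eq (Poly.length hw)
    (Poly.npow (NPC.Poly.const 2) ((UPoly.length hx).eval p))

theorem isNEXP_Uns {A : Oracle} {L B : Set (List Bool)} (hL : Gauge.IsNEXP A L)
    (hB : Gauge.IsNEXP A B) (K : ℕ) : Gauge.IsNEXP A (Uns L B K) := by
  obtain ⟨VL, pL, hVL, hL⟩ := hL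
  obtain ⟨VB, pB, hVB, hB⟩ := hB
  have hX : ∀ n, (Polynomial.X ^ K : Polynomial ℕ).eval n = n ^ K := fun n => by
    rw [Polynomial.eval_pow, Polynomial.eval_X]
  have h0 : Poly (fun z : List Bool × List Bool × List Bool × List Bool => z.1) :=
    Poly.fst Poly.id
  have h1 : Poly (fun z : List Bool × List Bool × List Bool × List Bool => z.2.1) :=
    Poly.fst (Poly.snd Poly.id)
  have h2 : Poly (fun z : List Bool × List Bool × List Bool × List Bool => z.2.2.1) :=
    Poly.fst (Poly.snd (Poly.snd Poly.id))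
  have h3 : Poly (fun z : List Bool × List Bool × List Bool × List Bool => z.2.2.2) :=
    Poly.snd (Poly.snd (Poly.snd Poly.id))
  have h4 : Poly (fun z : List Bool × List Bool × List Bool × List Bool =>
      valB (unpair z.1).1) := Poly.valBits (Poly.fst (poly_unpair.comp h0))
  have h5 : Poly (fun z : List Bool × List Bool × List Bool × List Bool =>
      pairBits z.2.1 (unp (unpair z.1).2)) :=
    H622R2.poly_pairBits h1 (p_unp (Poly.snd (poly_unpair.comp h0)))
  refine isNEXP_of (β := List Bool × List Bool × List Bool)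
    (R := fun z => (decide (valB (unpair z.1).1 ≤ (Polynomial.X ^ K : Polynomial ℕ).eval z.1.length) &&
      decide (z.2.1.length = valB (unpair z.1).1)) &&
      (lenOk pL z.2.1 z.2.2.1 && lenOk pB (pairBits z.2.1 (unp (unpair z.1).2)) z.2.2.2)) ?_
    hVL hVB (g1 := fun z => pairBits z.2.2.1 z.2.1)
    (g2 := fun z => pairBits z.2.2.2 (pairBits z.2.1 (unp (unpair z.1).2)))
    (H622R2.poly_pairBits h2 h1) (H622R2.poly_pairBits h3 h5)
    (Polynomial.X ^ K + pL.comp (Polynomial.X ^ K) +
      pB.comp (Polynomial.C 2 * Polynomial.X ^ K + Polynomial.C 1 + Polynomial.X) +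
      Polynomial.C 5) fun u => ?_
  · exact Poly.and (Poly.and (Poly.decide_le h4 ((UPoly.length h0).eval _).toPoly)
      (Poly.decide_eq (Poly.length h1) h4))
      (Poly.and (p_lenOk pL h1 h2) (p_lenOk pB h5 h3))
  · simp only [Uns, Set.mem_ofPred_eq, Bool.and_eq_true, decide_eq_true_eq, hX, lenOk]
    constructor
    · rintro ⟨h1, x, h2, h3, h4⟩
      obtain ⟨wL, h5, h6⟩ := (hL x).1 h3
      obtain ⟨wB, h7, h8⟩ := (hB _).1 h4
      refine ⟨(x, wL, wB), ?_, ⟨⟨h1, h2⟩, h5, h7⟩, h6, h8⟩
      have e1 := sz_listBool_le x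
      have e2 := sz_listBool_le wL
      have e3 := sz_listBool_le wB
      have e4 : x.length ≤ u.length ^ K := h2 ▸ h1
      have e5 : wL.length ≤ 2 ^ pL.eval (u.length ^ K) := by
        rw [h5]
        exact Nat.pow_le_pow_right (by norm_num) (eval_mono pL e4)
      have e6 : wB.length ≤ 2 ^ pB.eval (2 * u.length ^ K + 1 + u.length) := by
        rw [h7]
        apply Nat.pow_le_pow_right (by norm_num)
        apply eval_mono
        rw [length_pairBits]
        have e7 := length_unp_le (unpair u).2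
        have e8 := (length_unpair_le u).2
        omega
      have e9 := two_pow_sum (u.length ^ K) (pL.eval (u.length ^ K))
        (pB.eval (2 * u.length ^ K + 1 + u.length))
      have e10 : u.length ^ K ≤ 2 ^ (u.length ^ K) := Nat.lt_two_pow_self.le
      rw [sz_pair, sz_pair]
      simp only [Polynomial.eval_add, Polynomial.eval_comp, Polynomial.eval_mul,
        Polynomial.eval_pow, Polynomial.eval_X, Polynomial.eval_C]
      omega
    · rintro ⟨⟨x, wL, wB⟩, -, ⟨⟨h1, h2⟩, h5, h7⟩, h6, h8⟩
      exact ⟨h1, x, h2, (hL x).2 ⟨wL, h5, h6⟩, (hB _).2 ⟨wB, h7, h8⟩⟩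

theorem isNEXP_New {A : Oracle} {B B' : Set (List Bool)} (hB : Gauge.IsNEXP A B)
    (hB' : Gauge.IsNEXP A B') (q : Polynomial ℕ) : Gauge.IsNEXP A (New B B' q) := by
  obtain ⟨VB, pB, hVB, hB⟩ := hB
  obtain ⟨VC, pC, hVC, hC⟩ := hB'
  have h0 : Poly (fun z : List Bool × List Bool × List Bool × List Bool => z.1) :=
    Poly.fst Poly.id
  have h1 : Poly (fun z : List Bool × List Bool × List Bool × List Bool => z.2.1) :=
    Poly.fst (Poly.snd Poly.id)
  have h2 : Poly (fun z : List Bool × List Bool × List Bool × List Bool => z.2.2.1) :=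
    Poly.fst (Poly.snd (Poly.snd Poly.id))
  have h3 : Poly (fun z : List Bool × List Bool × List Bool × List Bool => z.2.2.2) :=
    Poly.snd (Poly.snd (Poly.snd Poly.id))
  have hx : Poly (fun z : List Bool × List Bool × List Bool × List Bool => (unpair z.1).1) :=
    Poly.fst (poly_unpair.comp h0)
  have hs : Poly (fun z : List Bool × List Bool × List Bool × List Bool =>
      unpair (unpair z.1).2) := poly_unpair.comp (Poly.snd (poly_unpair.comp h0))
  have h4 : Poly (fun z : List Bool × List Bool × List Bool × List Bool =>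
      valB (unpair (unpair z.1).2).1) := Poly.valBits (Poly.fst hs)
  have h5 : Poly (fun z : List Bool × List Bool × List Bool × List Bool =>
      pairBits (unpair z.1).1.length.bits z.2.1) :=
    H622R2.poly_pairBits (NPC.Poly.natBits (Poly.length hx)) h1
  have h6 : Poly (fun z : List Bool × List Bool × List Bool × List Bool =>
      pairBits (pairBits (unpair z.1).1.length.bits z.2.1) (unpair (unpair z.1).2).2) :=
    H622R2.poly_pairBits h5 (Poly.snd hs)
  have h7 : Poly (fun z : List Bool × List Bool × List Bool × List Bool =>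
      pairBits (unpair z.1).1 (unp z.2.1)) := H622R2.poly_pairBits hx (p_unp h1)
  refine isNEXP_of (β := List Bool × List Bool × List Bool)
    (R := fun z => (decide (valB (unpair (unpair z.1).2).1 ≤ q.eval (unpair z.1).1.length) &&
      decide ((pairBits (unpair z.1).1.length.bits z.2.1).length =
        valB (unpair (unpair z.1).2).1)) &&
      (lenOk pC (pairBits (pairBits (unpair z.1).1.length.bits z.2.1) (unpair (unpair z.1).2).2)
        z.2.2.1 && lenOk pB (pairBits (unpair z.1).1 (unp z.2.1)) z.2.2.2)) ?_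
    hVC hVB
    (g1 := fun z => pairBits z.2.2.1
      (pairBits (pairBits (unpair z.1).1.length.bits z.2.1) (unpair (unpair z.1).2).2))
    (g2 := fun z => pairBits z.2.2.2 (pairBits (unpair z.1).1 (unp z.2.1)))
    (H622R2.poly_pairBits h2 h6) (H622R2.poly_pairBits h3 h7)
    (q + pC.comp (Polynomial.C 2 * q + Polynomial.C 1 + Polynomial.X) +
      pB.comp (Polynomial.C 2 * Polynomial.X + Polynomial.C 1 + q) +
      Polynomial.C 5) fun y => ?_
  · exact Poly.and (Poly.and (Poly.decide_le h4 ((UPoly.length hx).eval q).toPoly)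
      (Poly.decide_eq (Poly.length h5) h4))
      (Poly.and (p_lenOk pC h6 h2) (p_lenOk pB h7 h3))
  · simp only [New, Set.mem_ofPred_eq, Bool.and_eq_true, decide_eq_true_eq, lenOk]
    constructor
    · rintro ⟨h1, a, h2, h3, h4⟩
      obtain ⟨wC, h5, h6⟩ := (hC _).1 h3
      obtain ⟨wB, h7, h8⟩ := (hB _).1 h4
      refine ⟨(a, wC, wB), ?_, ⟨⟨h1, h2⟩, h5, h7⟩, h6, h8⟩
      have e1 := sz_listBool_le a
      have e2 := sz_listBool_le wC
      have e3 := sz_listBool_le wB
      obtain ⟨hl1, hl2⟩ := length_unpair_le y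
      obtain ⟨hl3, hl4⟩ := length_unpair_le (unpair y).2
      have hq := eval_mono q hl1
      have e4 : a.length ≤ q.eval y.length := by
        rw [length_pairBits] at h2
        omega
      have e5 : wC.length ≤ 2 ^ pC.eval (2 * q.eval y.length + 1 + y.length) := by
        rw [h5]
        apply Nat.pow_le_pow_right (by norm_num)
        apply eval_mono
        rw [length_pairBits, h2]
        omega
      have e6 : wB.length ≤ 2 ^ pB.eval (2 * y.length + 1 + q.eval y.length) := by
        rw [h7]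
        apply Nat.pow_le_pow_right (by norm_num)
        apply eval_mono
        rw [length_pairBits]
        have e7 := length_unp_le a
        omega
      have e9 := two_pow_sum (q.eval y.length) (pC.eval (2 * q.eval y.length + 1 + y.length))
        (pB.eval (2 * y.length + 1 + q.eval y.length))
      have e10 : q.eval y.length ≤ 2 ^ (q.eval y.length) := Nat.lt_two_pow_self.le
      rw [sz_pair, sz_pair]
      simp only [Polynomial.eval_add, Polynomial.eval_comp, Polynomial.eval_mul,
        Polynomial.eval_X, Polynomial.eval_C]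
      omega
    · rintro ⟨⟨a, wC, wB⟩, -, ⟨⟨h1, h2⟩, h5, h7⟩, h6, h8⟩
      exact ⟨h1, a, h2, (hC _).2 ⟨wC, h5, h6⟩, (hB _).2 ⟨wB, h7, h8⟩⟩

/-- `coNEXP ⊆ NEXP / (c n + O(1))` relative to `A` -/
def Lin (A : Oracle) (c : ℝ) : Prop :=
  ∀ L, Gauge.IsNEXP A L → ∃ C : ℝ, WithAdviceLen (Gauge.IsNEXP A) (fun n => c * n + C) Lᶜ

/-- The general step: advice of length `g` for this language and small advice for all languages
give smaller advice for this language. -/
theorem step {A : Oracle} {L B : Set (List Bool)} {f : ℕ → List Bool} (hL : Gauge.IsNEXP A L)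
    (hB : Gauge.IsNEXP A B) (hf : ∀ x, x ∉ L ↔ pairBits x (f x.length) ∈ B) {g : ℕ → ℝ}
    (hg : ∀ n, ((f n).length : ℝ) ≤ g n) {D : ℝ} (hD : ∀ n : ℕ, g n ≤ D * n + D) {δ : ℝ}
    (hδ : 0 < δ) (hδ1 : δ ≤ 1) : ∃ (U : Set (List Bool)) (N : ℕ → ℕ) (C : ℝ),
      Gauge.IsNEXP A U ∧ 0 ≤ C ∧ (∀ n, (N n : ℝ) ≤ g n + C * (n : ℝ) ^ δ + C) ∧
      ∀ (g' : ℕ → ℝ), WithAdviceLen (Gauge.IsNEXP A) g' Uᶜ →
        WithAdviceLen (Gauge.IsNEXP A) (fun n => g' (N n) + 2 * (N n).size + 1) Lᶜ := by
  obtain ⟨K, r, hr1, hr2⟩ := exists_root hδ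
  obtain ⟨C, hC0, hC⟩ := size_le_rpow hδ
  set N : ℕ → ℕ := fun n => 2 * n.bits.length + 2 + (f n).length + r n with hN
  have hbits : ∀ n : ℕ, n.bits.length = n.size := fun n => Nat.size_eq_bits_len n
  -- a polynomial bound
  obtain ⟨q, hq⟩ : ∃ q : Polynomial ℕ, ∀ n, N n ≤ q.eval n := by
    obtain ⟨E, hE⟩ := exists_nat_ge (max D 0)
    refine ⟨Polynomial.C (2 * 1 + E + 1) * Polynomial.X + Polynomial.C (4 + E), fun n => ?_⟩
    have e1 : (E : ℝ) ≥ D := le_trans (le_max_left _ _) hE
    have e2 : n.size ≤ n := Nat.size_le.2 Nat.lt_two_pow_self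
    have e3 : ((f n).length : ℝ) ≤ E * n + E := by
      refine (hg n).trans ((hD n).trans ?_)
      have : (0 : ℝ) ≤ n := by positivity
      nlinarith
    have e3' : (f n).length ≤ E * n + E := by exact_mod_cast e3
    have e4 : (r n : ℝ) ≤ n + 2 := by
      have := rpow_le_self_add hδ1 hδ n
      linarith [hr2 n]
    have e4' : r n ≤ n + 2 := by exact_mod_cast e4
    simp only [hN, hbits, Polynomial.eval_add, Polynomial.eval_mul, Polynomial.eval_C,
      Polynomial.eval_X]
    nlinarith
  refine ⟨Uns L B K, N, 2 * C + 4, isNEXP_Uns hL hB K, by positivity, fun n => ?_,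
    fun g' hg' => ?_⟩
  · simp only [hN, hbits]
    push_cast
    have e1 := hC n
    have e2 := hr2 n
    have e3 := hg n
    have e4 : (0 : ℝ) ≤ (n : ℝ) ^ δ := by positivity
    nlinarith
  · obtain ⟨B', f', hB', hlen, hf'⟩ := hg'
    refine ⟨New B B' q, fun n => pairBits (N n).bits (f' (N n)), isNEXP_New hB hB' q,
      fun n => ?_, fun x => ?_⟩
    · rw [length_pairBits, hbits]
      push_cast
      have := hlen (N n)
      linarith
    · exact compose hf (fun n => (hr1 n).trans (Nat.pow_le_pow_left (by simp [hN]) K))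
        (fun n => by simp only [hN]; omega) hq hf' x

theorem mono {C : Set (List Bool) → Prop} {g g' : ℕ → ℝ} (h : ∀ n, g n ≤ g' n)
    {L : Set (List Bool)} (hL : WithAdviceLen C g L) : WithAdviceLen C g' L := by
  obtain ⟨B, f, h1, h2, h3⟩ := hL
  exact ⟨B, f, h1, fun n => (h2 n).trans (h n), h3⟩

/-- one round, linear bounds -/
theorem Lin.sq {A : Oracle} {c c' : ℝ} (h0 : 0 < c) (h1 : c < 1) (h : Lin A c)
    (hc' : c * c < c') : Lin A c' := by
  intro L hL
  obtain ⟨C, B, f, hB, hlen, hf⟩ := h L hL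
  obtain ⟨U, N, D, hU, hD0, hN, hstep⟩ := step hL hB hf hlen (D := 1 + |C|) (fun n => by
    have := le_abs_self C
    have := abs_nonneg C
    have : (0 : ℝ) ≤ n := by positivity
    nlinarith) (δ := 1 / 2) (by norm_num) (by norm_num)
  obtain ⟨C', hC'⟩ := h U hU
  obtain ⟨E, hE0, hE⟩ := size_le_rpow (δ := 1 / 2) (by norm_num)
  -- small powers are absorbed
  have habs : ∀ (a η : ℝ), 0 ≤ a → 0 < η → ∃ M : ℝ, 0 ≤ M ∧ ∀ n : ℕ,
      a * (n : ℝ) ^ (1 / 2 : ℝ) ≤ η * n + M := by
    intro a η ha hη
    refine ⟨a ^ 2 / η, by positivity, fun n => ?_⟩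
    have e1 : ((n : ℝ) ^ (1 / 2 : ℝ)) * ((n : ℝ) ^ (1 / 2 : ℝ)) = n := by
      rw [← Real.sqrt_eq_rpow]
      exact Real.mul_self_sqrt (by positivity)
    set s := (n : ℝ) ^ (1 / 2 : ℝ) with hs
    rw [← e1]
    have e2 : 0 ≤ (η * s - a) ^ 2 / η := by positivity
    have e3 : (η * s - a) ^ 2 / η = η * (s * s) - 2 * a * s + a ^ 2 / η := by
      field_simp
      ring
    have e4 : 0 ≤ s := by positivity
    have e5 : 0 ≤ a * s := by positivity
    nlinarith
  set η := (c' - c * c) / 4 with hη
  have hη0 : 0 < η := by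
    rw [hη]
    linarith
  obtain ⟨M₁, hM₁0, hM₁⟩ := habs D η hD0 hη0
  obtain ⟨M₂, hM₂0, hM₂⟩ := habs (2 * E) η (by positivity) hη0
  -- `η` may be assumed to be small
  have hηc : (c + η) * (c + η) ≤ c' ∨ c' > 1 := by
    by_cases hc1 : c' > 1
    · exact Or.inr hc1
    · left
      push Not at hc1
      have e1 : η ≤ 1 / 4 := by
        rw [hη]
        nlinarith
      have e2 : c' = c * c + 4 * η := by
        rw [hη]
        ring
      nlinarith
  rcases hηc with hηc | hc1
  · refine ⟨(c + η) * (C + M₁ + D) + (C' + M₂ + 2 * E + 1) + |(c + η) * (C + M₁ + D)|,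
      mono (fun n => ?_) (hstep _ hC')⟩
    have e1 : (N n : ℝ) ≤ (c + η) * n + (C + M₁ + D) := by
      have := hN n
      have := hM₁ n
      linarith
    have e2 := hE (N n)
    have e3 := hM₂ (N n)
    have e4 : c * (N n : ℝ) + C' + 2 * ((N n).size : ℝ) + 1 ≤
        (c + η) * (N n) + (C' + M₂ + 2 * E + 1) := by linarith
    have e5 : (c + η) * (N n : ℝ) ≤ (c + η) * ((c + η) * n + (C + M₁ + D)) :=
      mul_le_mul_of_nonneg_left e1 (by linarith)
    have e6 : (0 : ℝ) ≤ n := by positivity
    have e7 : (c + η) * (c + η) * (n : ℝ) ≤ c' * n := mul_le_mul_of_nonneg_right hηc e6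
    have e8 := abs_nonneg ((c + η) * (C + M₁ + D))
    nlinarith
  · refine ⟨|C|, mono (fun n => ?_) ⟨B, f, hB, hlen, hf⟩⟩
    have e6 : (0 : ℝ) ≤ n := by positivity
    have := le_abs_self C
    nlinarith

theorem Lin.mono {A : Oracle} {c c' : ℝ} (h1 : c ≤ c') (h : Lin A c) : Lin A c' := by
  intro L hL
  obtain ⟨C, hC⟩ := h L hL
  refine ⟨C, Gp.mono (fun n => ?_) hC⟩
  have e6 : (0 : ℝ) ≤ n := by positivity
  nlinarith

/-- **The gap theorem for linear bounds.** -/
theorem lin_gap {A : Oracle} {c : ℝ} (h1 : c < 1) (h : Lin A c) {ε : ℝ} (hε : 0 < ε) :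
    Lin A ε := by
  obtain ⟨d, hd0, hd1, hd⟩ : ∃ d : ℝ, 0 < d ∧ d < 1 ∧ Lin A (d * d) := by
    rcases le_or_gt c (1 / 4) with h2 | h2
    · exact ⟨1 / 2, by norm_num, by norm_num, h.mono (by linarith)⟩
    · refine ⟨Real.sqrt c, Real.sqrt_pos.2 (by linarith), ?_, ?_⟩
      · rw [Real.sqrt_lt' (by norm_num)]
        simpa using h1
      · rw [Real.mul_self_sqrt (by linarith)]
        exact h
  have key : ∀ k : ℕ, Lin A (d ^ (k + 2)) := by
    intro k
    induction k with
    | zero => simpa [_root_.sq] using hd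
    | succ k ih =>
      refine ih.sq (by positivity) (pow_lt_one₀ hd0.le hd1 (by omega)) ?_
      rw [← pow_add]
      exact pow_lt_pow_right_of_lt_one₀ hd0 hd1 (by omega)
  obtain ⟨m, hm⟩ := exists_pow_lt_of_lt_one hε hd1
  refine (key m).mono (le_trans (pow_le_pow_of_le_one hd0.le hd1.le ?_) hm.le)
  omega

/-- no advice is a special case of advice -/
theorem withAdviceLen_of {A : Oracle} {L : Set (List Bool)} (hL : Gauge.IsNEXP A L) :
    WithAdviceLen (Gauge.IsNEXP A) (fun n => 0 * n + 0) L := by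
  obtain ⟨V, p, hV, hL⟩ := hL
  refine ⟨{y | (unpair y).1 ∈ L}, fun _ => [], ?_, fun n => by simp, fun x => ?_⟩
  · have h0 : Poly (fun z : List Bool × List Bool => (unpair z.1).1) :=
      Poly.fst (poly_unpair.comp (Poly.fst Poly.id))
    have h1 : Poly (fun z : List Bool × List Bool => z.2) := Poly.snd Poly.id
    refine isNEXP_of (β := List Bool) (R := fun z => lenOk p (unpair z.1).1 z.2)
      (p_lenOk p h0 h1) hV hV (g1 := fun z => pairBits z.2 (unpair z.1).1)
      (g2 := fun z => pairBits z.2 (unpair z.1).1) (H622R2.poly_pairBits h1 h0)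
      (H622R2.poly_pairBits h1 h0) (p + Polynomial.C 3) fun y => ?_
    simp only [Set.mem_ofPred_eq, lenOk, decide_eq_true_eq]
    rw [hL]
    constructor
    · rintro ⟨w, h2, h3⟩
      refine ⟨w, ?_, h2, h3, h3⟩
      have e1 := sz_listBool_le w
      have e2 : w.length ≤ 2 ^ p.eval y.length := by
        rw [h2]
        exact Nat.pow_le_pow_right (by norm_num) (eval_mono p (length_unpair_le y).1)
      have e3 : 1 ≤ 2 ^ p.eval y.length := Nat.one_le_two_pow
      rw [Polynomial.eval_add, Polynomial.eval_C, pow_add]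
      omega
    · rintro ⟨w, -, h2, h3, -⟩
      exact ⟨w, h2, h3⟩
  · show x ∈ L ↔ (unpair (pairBits x [])).1 ∈ L
    rw [unpair_pairBits]

end Gp

end Pool.Agent.H620R2.Gauge
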