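import Pool.Agent.W2helper57.NEX.Verify

/-!
# There are many oracles with `NEXP = coNEXP`
-/

namespace Pool.Agent.H620R2.Gauge

open Pool.Agent.NPC Pool.Agent.H622R2 Finset MeasureTheory

namespace Cen

/-- the language of a machine depends on short strings only -/
theorem lng_local (M : Alg) (p : Polynomial ℕ) : ∃ r : Polynomial ℕ, ∀ (x : List Bool)
    (A A' : Oracle), (∀ z : List Bool, z.length ≤ 2 ^ r.eval x.length → A z = A' z) →
    (x ∈ lng M p A ↔ x ∈ lng M p A') := by
  obtain ⟨qb, hqb⟩ := Alg.out_local M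
  obtain ⟨r, hr⟩ := exists_exp_bound qb p
  refine ⟨r, fun x A A' h => ?_⟩
  unfold lng
  simp only [Set.mem_ofPred_eq]
  apply exists_congr
  intro w
  apply and_congr_right
  intro hw
  obtain ⟨U, _, hU2, hU3⟩ := hqb A (pairBits w x)
  have h1 : M.out A' (pairBits w x) = M.out A (pairBits w x) := by
    apply hU3
    intro z hz
    have h2 := hU2 z hz
    rw [length_pairBits, hw] at h2
    exact (h z (h2.trans (hr x.length))).symm
  rw [h1]

theorem exists_enumN : ∃ g : ℕ → Alg × Polynomial ℕ, Function.Surjective g := by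
  have h1 := CC.poly_countable
  obtain ⟨al, hal⟩ := exists_alg
  have h3 : Nonempty (Alg × Polynomial ℕ) := ⟨(al 0, 0)⟩
  exact exists_surjective_nat (Alg × Polynomial ℕ)

theorem exists_codingN (K : ℕ) : ∃ (R : ℕ → Polynomial ℕ) (Φ : Oracle → Oracle),
    (∀ e n, (n + e + 1) ^ K ≤ (R e).eval n) ∧
    (∀ B y, y ∉ {y | ∃ e n i, i ≤ n ∧ y = xcode R e n i} → Φ B y = B y) ∧
    ∀ B L, IsNEXP (Φ B) L → IsNEXP (Φ B) Lᶜ := by
  obtain ⟨g, hg⟩ := exists_enumN
  choose b hb using fun e : ℕ => lng_local (g e).1 (g e).2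
  set R : ℕ → Polynomial ℕ := fun e => b e + (Polynomial.X + Polynomial.C (e + 1)) ^ K with hR
  have hRe : ∀ e n, (R e).eval n = (b e).eval n + (n + (e + 1)) ^ K := by
    intro e n
    rw [hR]
    simp only [Polynomial.eval_add, Polynomial.eval_pow, Polynomial.eval_X, Polynomial.eval_C]
  set V : ℕ → ℕ → ℕ → Oracle → Prop := fun e n i A =>
    (bitsOf (n + 1) (cens (g e).1 (g e).2 A n)).getD i false = true with hV
  have hloc : ∀ e n i A A', (∀ z : List Bool, z.length < (xcode R e n i).length → A z = A' z) →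
      (V e n i A ↔ V e n i A') := by
    intro e n i A A' h
    have h1 : cens (g e).1 (g e).2 A n = cens (g e).1 (g e).2 A' n := by
      apply cens_congr
      intro x hx
      apply hb e x A A'
      intro z hz
      apply h
      have h2 := lt_length_xcode R e n i
      have h3 : 2 ^ (b e).eval n ≤ 2 ^ (R e).eval n :=
        Nat.pow_le_pow_right (by norm_num) (by rw [hRe]; omega)
      rw [hx] at hz
      omega
    simp only [hV, h1]
  refine ⟨R, Phi R V, ?_, fun B y h => Phi_not R V B y h, ?_⟩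
  · intro e n
    rw [hRe, add_assoc n e 1]
    exact Nat.le_add_left _ _
  · rintro B L ⟨V₀, p, ⟨M, hM⟩, hL⟩
    obtain ⟨e, he⟩ := hg (M, p)
    have hLl : L = lng M p (Phi R V B) := by
      ext x
      rw [hL x]
      unfold lng
      simp only [Set.mem_ofPred_eq, hM, Option.some.injEq]
    rw [hLl]
    apply isNEXP_compl (R := R) (e := e) hM
    intro n i hi
    have h1 := Phi_code R V B hloc e n i hi
    simp only [hV, he] at h1
    rw [Bool.eq_iff_iff]
    exact h1

end Cen

open Cen in
theorem not_nullNEc (f : ℕ → ℝ) (ε : ℝ) (hε : 0 < ε)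
    (hf : ∀ᶠ N : ℕ in Filter.atTop, (Real.logb 2 (Real.logb 2 N)) ^ ε < f N) (O : Set Oracle)
    (hO : ∀ A : Oracle, (∀ L, IsNEXP A L → IsNEXP A Lᶜ) → A ∈ O) : ¬ Null f O := by
  classical
  obtain ⟨K, hK⟩ := exists_nat_gt (3 / ε)
  have hK' : 3 ≤ ε * K := by
    rw [div_lt_iff₀ hε] at hK
    linarith
  have hK1 : 1 ≤ K := by
    rcases Nat.eq_zero_or_pos K with h | h
    · subst h; simp at hK'; linarith
    · exact h
  obtain ⟨R, Φ, hR, hΦ, hΦO⟩ := exists_codingN K
  have hsp := Cen.sparse hK1 R hR hK'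
  obtain ⟨N₀, hN₀⟩ := Filter.eventually_atTop.1 (hf.and hsp)
  -- the constant for the short sequences
  obtain ⟨c, hc0, hc⟩ : ∃ c : ℝ, 0 ≤ c ∧ ∀ N < N₀, (N : ℝ) ≤ f N + c := by
    have h1 : ∀ m : ℕ, ∃ c : ℝ, 0 ≤ c ∧ ∀ N < m, (N : ℝ) ≤ f N + c := by
      intro m
      induction m with
      | zero => exact ⟨0, le_rfl, fun N hN => by omega⟩
      | succ m ih =>
        obtain ⟨c, h1, h2⟩ := ih
        refine ⟨max c (m - f m), le_max_of_le_left h1, ?_⟩
        intro N hN
        rcases Nat.lt_succ_iff_lt_or_eq.1 hN with h | h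
        · have := h2 N h
          have := le_max_left c (m - f m)
          linarith
        · subst h
          have := le_max_right c (N - f N)
          linarith
    exact h1 N₀
  refine not_null_of f Set.univ (by rw [measure_univ]; exact one_pos) Φ
    {y | ∃ e n i, i ≤ n ∧ y = xcode R e n i} hΦ c ?_ O fun B _ => hO _ (hΦO B)
  intro N
  by_cases hN : N < N₀
  · have h1 := hc N hN
    have h2 : ((Finset.range N).filter
        (fun j => str j ∈ {y | ∃ e n i, i ≤ n ∧ y = xcode R e n i})).card ≤ N := by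
      refine (Finset.card_filter_le _ _).trans ?_
      simp
    have h3 : (((Finset.range N).filter
        (fun j => str j ∈ {y | ∃ e n i, i ≤ n ∧ y = xcode R e n i})).card : ℝ) ≤ N := by
      exact_mod_cast h2
    refine le_trans (le_of_eq ?_) (h3.trans h1)
    congr 2
  · obtain ⟨h1, h2⟩ := hN₀ N (not_lt.1 hN)
    have h3 : (((Finset.range N).filter
        (fun j => str j ∈ {y | ∃ e n i, i ≤ n ∧ y = xcode R e n i})).card : ℝ) ≤ f N + c := by
      refine le_trans (le_of_eq ?_) (h2.trans (by linarith))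
      congr 2
    exact h3

end Pool.Agent.H620R2.Gauge
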