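import Pool.Agent.W2helper57.NEX.Event
import Pool.Agent.H620R2.Gauge.Cover

/-!
# The choice of the parameters
-/

namespace Pool.Agent.H620R2.Gauge

open Pool.Agent.NPC Finset H568R2 Pool.Agent.H676 Filter Topology

namespace NAsym

theorem pow_two_le (n : ℕ) : n + 2 * 2 ^ n ≤ 2 ^ (n + 3) := by
  have h1 : n < 2 ^ n := Nat.lt_two_pow_self
  have h2 : 2 ^ (n + 3) = 8 * 2 ^ n := by rw [pow_add]; ring
  omega

theorem third (R n : ℕ) (h : 2 * n + R + 1 ≤ 2 ^ n) :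
    (2 : ℝ) ^ n * (2 ^ R / (2 ^ (2 ^ n) - 1)) ≤ 2 ^ (-(n : ℝ) / 2) := by
  have h1 : (2 : ℝ) ^ (2 ^ n - 1) ≤ 2 ^ (2 ^ n) - 1 := by
    have h2 : (2 : ℝ) ^ (2 ^ n) = 2 * 2 ^ (2 ^ n - 1) := by
      rw [← pow_succ']
      congr 1
      omega
    have h3 : (1 : ℝ) ≤ 2 ^ (2 ^ n - 1) := one_le_pow₀ (by norm_num)
    rw [h2]
    linarith
  have h2 : (0 : ℝ) < 2 ^ (2 ^ n - 1) := by positivity
  have h4 : (2 : ℝ) ^ (-(n : ℝ) / 2) * 2 ^ (n : ℕ) ≥ 1 := by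
    rw [← Real.rpow_natCast, ← Real.rpow_add (by norm_num)]
    apply Real.one_le_rpow (by norm_num)
    have : (0 : ℝ) ≤ n := by positivity
    linarith
  have h5 : (2 : ℝ) ^ n * 2 ^ R * 2 ^ n ≤ 2 ^ (2 ^ n - 1) := by
    rw [← pow_add, ← pow_add]
    apply pow_le_pow_right₀ (by norm_num)
    omega
  calc (2 : ℝ) ^ n * (2 ^ R / (2 ^ (2 ^ n) - 1)) ≤ 2 ^ n * (2 ^ R / 2 ^ (2 ^ n - 1)) := by
        apply mul_le_mul_of_nonneg_left _ (by positivity)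
        exact div_le_div_of_nonneg_left (by positivity) h2 h1
    _ = (2 ^ n * 2 ^ R) / 2 ^ (2 ^ n - 1) := by ring
    _ ≤ (2 ^ n * 2 ^ R) / (2 ^ n * 2 ^ R * 2 ^ n) :=
        div_le_div_of_nonneg_left (by positivity) (by positivity) h5
    _ = 1 / 2 ^ n := by field_simp
    _ ≤ 2 ^ (-(n : ℝ) / 2) := by
        rw [div_le_iff₀ (by positivity)]
        exact h4

theorem second (n r : ℕ) (h : r ≤ 2 ^ n) : (r : ℝ) * (1 / 2) ^ (2 * n) ≤ 2 ^ (-(n : ℝ) / 2) := by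
  have h1 : (r : ℝ) ≤ 2 ^ n := by exact_mod_cast h
  calc (r : ℝ) * (1 / 2) ^ (2 * n) ≤ 2 ^ n * (1 / 2) ^ (2 * n) :=
        mul_le_mul_of_nonneg_right h1 (by positivity)
    _ = 2 ^ (-(n : ℝ)) := by
        rw [Real.rpow_neg (by norm_num), Real.rpow_natCast, two_mul, pow_add, ← mul_assoc,
          ← mul_pow, mul_one_div_cancel (two_ne_zero' ℝ), one_pow, one_mul, one_div, inv_pow]
    _ ≤ 2 ^ (-(n : ℝ) / 2) := by
        apply Real.rpow_le_rpow_of_exponent_le (by norm_num)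
        have : (0 : ℝ) ≤ n := by positivity
        linarith

theorem first (n : ℕ) (hn : 1 ≤ n) :
    1 / Real.sqrt (((2 ^ n / (2 * n) : ℕ) : ℝ) + 1) ≤ 2 * n * 2 ^ (-(n : ℝ) / 2) := by
  have hnR : (1 : ℝ) ≤ n := by exact_mod_cast hn
  have h1 : (2 : ℝ) ^ n / (2 * n) ≤ ((2 ^ n / (2 * n) : ℕ) : ℝ) + 1 := by
    have h2 : 2 ^ n < (2 ^ n / (2 * n) + 1) * (2 * n) := by
      have := Nat.lt_mul_div_succ (2 ^ n) (show 0 < 2 * n by omega)
      linarith [this]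
    rw [div_le_iff₀ (by positivity)]
    exact_mod_cast h2.le
  have h3 : Real.sqrt ((2 : ℝ) ^ n / (2 * n)) ≤ Real.sqrt (((2 ^ n / (2 * n) : ℕ) : ℝ) + 1) :=
    Real.sqrt_le_sqrt h1
  have h4 : (2 : ℝ) ^ ((n : ℝ) / 2) / (2 * n) ≤ Real.sqrt ((2 : ℝ) ^ n / (2 * n)) := by
    apply Real.le_sqrt_of_sq_le
    rw [div_pow, ← Real.rpow_natCast, ← Real.rpow_mul (by norm_num)]
    have e : (n : ℝ) / 2 * ((2 : ℕ) : ℝ) = n := by push_cast; ring
    rw [e, Real.rpow_natCast]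
    apply div_le_div_of_nonneg_left (by positivity) (by positivity)
    nlinarith
  have h5 : (0 : ℝ) < 2 ^ ((n : ℝ) / 2) / (2 * n) := by positivity
  calc 1 / Real.sqrt (((2 ^ n / (2 * n) : ℕ) : ℝ) + 1) ≤ 1 / (2 ^ ((n : ℝ) / 2) / (2 * n)) :=
        one_div_le_one_div_of_le h5 (h4.trans h3)
    _ = 2 * n * 2 ^ (-(n : ℝ) / 2) := by
        rw [one_div_div, neg_div, Real.rpow_neg (by norm_num)]
        rfl

theorem total (k : ℕ) (δ : ℝ) (hδ : 0 < δ) : ∀ᶠ n : ℕ in atTop, ∀ t : ℝ, t ≤ Real.sqrt n →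
    2 ^ ((n : ℝ) / 2 - n / (k + 1) + k + 1) * ((2 * n + 2) * 2 ^ (-(n : ℝ) / 2)) * 2 ^ t ≤ δ := by
  set b : ℝ := 2 ^ (-(1 / (2 * ((k : ℝ) + 1)))) with hb
  have hb0 : 0 < b := by positivity
  have hb1 : b < 1 := by
    rw [hb]
    apply Real.rpow_lt_one_of_one_lt_of_neg (by norm_num)
    have : (0 : ℝ) < 1 / (2 * ((k : ℝ) + 1)) := by positivity
    linarith
  have habs : |b| < 1 := by rw [abs_of_pos hb0]; exact hb1
  have h1 := tendsto_pow_const_mul_const_pow_of_abs_lt_one 1 habs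
  have h2 := tendsto_pow_const_mul_const_pow_of_abs_lt_one 0 habs
  have h3 : Tendsto (fun n : ℕ => (2 : ℝ) ^ ((k : ℝ) + 1) * (2 * ((n : ℝ) ^ 1 * b ^ n) +
      2 * ((n : ℝ) ^ 0 * b ^ n))) atTop (𝓝 0) := by
    have := ((h1.const_mul 2).add (h2.const_mul 2)).const_mul ((2 : ℝ) ^ ((k : ℝ) + 1))
    simpa using this
  filter_upwards [h3.eventually_le_const hδ, eventually_ge_atTop (4 * (k + 1) ^ 2)] with n hn hn2
  intro t ht
  have hk : (0 : ℝ) < (k : ℝ) + 1 := by positivity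
  have h4 : Real.sqrt n ≤ n / (2 * (k + 1)) := by
    have hn2' : (4 * ((k : ℝ) + 1) ^ 2) ≤ n := by exact_mod_cast hn2
    have h5 : 2 * ((k : ℝ) + 1) ≤ Real.sqrt n := by
      apply Real.le_sqrt_of_sq_le
      nlinarith
    rw [le_div_iff₀ (by positivity)]
    have h6 := Real.mul_self_sqrt (show (0 : ℝ) ≤ n by positivity)
    nlinarith [Real.sqrt_nonneg (n : ℝ)]
  have h5 : (2 : ℝ) ^ ((n : ℝ) / 2 - n / (k + 1) + k + 1) * ((2 * n + 2) * 2 ^ (-(n : ℝ) / 2)) *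
      2 ^ t = (2 * n + 2) * 2 ^ ((k : ℝ) + 1) * 2 ^ (t - n / (k + 1)) := by
    have : (2 : ℝ) ^ ((n : ℝ) / 2 - n / (k + 1) + k + 1) * 2 ^ (-(n : ℝ) / 2) * 2 ^ t =
        2 ^ ((k : ℝ) + 1) * 2 ^ (t - n / (k + 1)) := by
      rw [← Real.rpow_add (by norm_num), ← Real.rpow_add (by norm_num),
        ← Real.rpow_add (by norm_num)]
      congr 1
      ring
    calc _ = (2 * n + 2) * ((2 : ℝ) ^ ((n : ℝ) / 2 - n / (k + 1) + k + 1) *
        2 ^ (-(n : ℝ) / 2) * 2 ^ t) := by ring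
      _ = _ := by rw [this]; ring
  have h6 : (2 : ℝ) ^ (t - n / (k + 1)) ≤ b ^ n := by
    rw [hb, ← Real.rpow_natCast, ← Real.rpow_mul (by norm_num)]
    apply Real.rpow_le_rpow_of_exponent_le (by norm_num)
    have e : (n : ℝ) / (k + 1) = n / (2 * (k + 1)) + n / (2 * (k + 1)) := by
      field_simp
      ring
    have e2 : -(1 / (2 * ((k : ℝ) + 1))) * n = -(n / (2 * (k + 1))) := by ring
    rw [e, e2]
    linarith
  rw [h5]
  calc (2 * (n : ℝ) + 2) * 2 ^ ((k : ℝ) + 1) * 2 ^ (t - n / (k + 1)) ≤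
      (2 * (n : ℝ) + 2) * 2 ^ ((k : ℝ) + 1) * b ^ n :=
        mul_le_mul_of_nonneg_left h6 (by positivity)
    _ = 2 ^ ((k : ℝ) + 1) * (2 * ((n : ℝ) ^ 1 * b ^ n) + 2 * ((n : ℝ) ^ 0 * b ^ n)) := by ring
    _ ≤ δ := hn

end NAsym

open NAsym in
theorem asymNE (θ : NPar) (R Q : Polynomial ℕ) (f : ℕ → ℝ)
    (hf : ∀ ε : ℝ, 0 < ε → ∃ᶠ N : ℕ in Filter.atTop,
      f N ≤ (Real.logb 2 (Real.logb 2 N)) ^ ε) (δ : ℝ) (hδ : 0 < δ) :
    ∃ n N r s : ℕ, 2 ^ (2 ^ Q.eval n) ≤ N ∧ 2 ^ (n + 2 * 2 ^ n) ≤ N + 1 ∧ r * s ≤ 2 ^ n ∧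
      (2 ^ (θ.adv n + 1) * (1 / Real.sqrt (r + 1) + r * (1 / 2) ^ s +
        2 ^ n * (2 ^ R.eval n / (2 ^ (2 ^ n) - 1)))) * 2 ^ f N ≤ δ := by
  set Q' : Polynomial ℕ := Q + Polynomial.X + Polynomial.C 3 with hQ'
  have hQ'ev : ∀ n, Q'.eval n = Q.eval n + n + 3 := by intro n; simp [hQ']
  set e : ℕ := Q'.natDegree with he
  set D : ℕ := e + 1 with hD
  obtain ⟨n₀, hn₀⟩ := X9.exists_n0 (2 * Polynomial.X + R + 1)
  have hev : ∀ᶠ n : ℕ in atTop, (∀ t : ℝ, t ≤ Real.sqrt n →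
      2 ^ ((n : ℝ) / 2 - n / (θ.k + 1) + θ.k + 1) * ((2 * n + 2) * 2 ^ (-(n : ℝ) / 2)) * 2 ^ t ≤ δ) ∧
      n₀ ≤ n ∧ 1 ≤ n ∧ Q'.eval 1 * 2 ^ e ≤ n := by
    filter_upwards [total θ.k δ hδ, eventually_ge_atTop n₀, eventually_ge_atTop 1,
      eventually_ge_atTop (Q'.eval 1 * 2 ^ e)] with n h1 h2 h3 h4
    exact ⟨h1, h2, h3, h4⟩
  obtain ⟨n1, hn1⟩ := eventually_atTop.1 hev
  -- the choice of N
  set ε : ℝ := 1 / (2 * (D : ℝ)) with hε
  have hD0 : (0 : ℝ) < D := by rw [hD]; positivity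
  have hε0 : 0 < ε := by positivity
  obtain ⟨N, hN1, hN2⟩ := ((hf ε hε0).and_eventually
    (eventually_ge_atTop (2 ^ (2 ^ Q'.eval n1)))).exists
  -- the choice of n
  have hbig : ∀ m, 2 ^ (2 ^ Q'.eval m) ≤ N → m ≤ N := by
    intro m hm
    have h1 : m < 2 ^ m := Nat.lt_two_pow_self
    have h2 : 2 ^ m ≤ 2 ^ Q'.eval m :=
      Nat.pow_le_pow_right (by norm_num) (by rw [hQ'ev]; omega)
    have h3 : 2 ^ Q'.eval m < 2 ^ (2 ^ Q'.eval m) := Nat.lt_two_pow_self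
    omega
  set n : ℕ := Nat.findGreatest (fun m => 2 ^ (2 ^ Q'.eval m) ≤ N) N with hn
  have hnP : 2 ^ (2 ^ Q'.eval n) ≤ N :=
    Nat.findGreatest_spec (P := fun m => 2 ^ (2 ^ Q'.eval m) ≤ N) (hbig n1 hN2) hN2
  have hn1n : n1 ≤ n :=
    Nat.le_findGreatest (P := fun m => 2 ^ (2 ^ Q'.eval m) ≤ N) (hbig n1 hN2) hN2
  have hmax : N < 2 ^ (2 ^ Q'.eval (n + 1)) := by
    by_contra hcon
    push Not at hcon
    have := Nat.le_findGreatest (P := fun m => 2 ^ (2 ^ Q'.eval m) ≤ N) (hbig _ hcon) hcon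
    rw [← hn] at this
    omega
  obtain ⟨c1, c2, c3, c4⟩ := hn1 n hn1n
  have hnR : (1 : ℝ) ≤ n := by exact_mod_cast c3
  -- f N ≤ √n
  have hfN : f N ≤ Real.sqrt n := by
    refine hN1.trans ?_
    have hN0 : (1 : ℝ) ≤ N := by
      have : 1 ≤ N := le_trans Nat.one_le_two_pow hnP
      exact_mod_cast this
    have h1 : Real.logb 2 N ≤ 2 ^ Q'.eval (n + 1) := by
      have h2 : (N : ℝ) ≤ 2 ^ (2 ^ Q'.eval (n + 1)) := by exact_mod_cast hmax.le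
      have h3 := Real.logb_le_logb_of_le (b := 2) (by norm_num) (by linarith) h2
      rw [Real.logb_pow, Real.logb_self_eq_one (by norm_num), mul_one] at h3
      push_cast at h3
      exact h3
    have h1' : (1 : ℝ) ≤ Real.logb 2 N := by
      rw [Real.le_logb_iff_rpow_le (by norm_num) (by linarith), Real.rpow_one]
      have h2 : 2 ^ 1 ≤ N := le_trans (Nat.pow_le_pow_right (by norm_num) Nat.one_le_two_pow) hnP
      exact_mod_cast h2
    have h2 : Real.logb 2 (Real.logb 2 N) ≤ Q'.eval (n + 1) := by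
      have h3 := Real.logb_le_logb_of_le (b := 2) (by norm_num) (by linarith) h1
      rw [Real.logb_pow, Real.logb_self_eq_one (by norm_num), mul_one] at h3
      exact h3
    have h2' : 0 ≤ Real.logb 2 (Real.logb 2 N) := Real.logb_nonneg (by norm_num) h1'
    have h3 : Q'.eval (n + 1) ≤ n ^ D := by
      have h4 := X9.eval_le Q' (n + 1) (by omega)
      refine h4.trans ?_
      rw [← he, hD, pow_succ']
      calc Q'.eval 1 * (n + 1) ^ e ≤ Q'.eval 1 * (2 * n) ^ e := by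
            apply Nat.mul_le_mul_left
            exact Nat.pow_le_pow_left (by omega) _
        _ = (Q'.eval 1 * 2 ^ e) * n ^ e := by rw [mul_pow]; ring
        _ ≤ n * n ^ e := Nat.mul_le_mul_right _ c4
    have h4 : Real.logb 2 (Real.logb 2 N) ≤ (n : ℝ) ^ D := h2.trans (by exact_mod_cast h3)
    calc (Real.logb 2 (Real.logb 2 N)) ^ ε ≤ ((n : ℝ) ^ D) ^ ε :=
          Real.rpow_le_rpow h2' h4 hε0.le
      _ = (n : ℝ) ^ (1 / 2 : ℝ) := by
          rw [← Real.rpow_natCast, ← Real.rpow_mul (by positivity), hε]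
          congr 1
          field_simp
      _ = Real.sqrt n := by rw [Real.sqrt_eq_rpow]
  have hmono : 2 ^ (2 ^ Q.eval n) ≤ 2 ^ (2 ^ Q'.eval n) := by
    apply Nat.pow_le_pow_right (by norm_num)
    exact Nat.pow_le_pow_right (by norm_num) (by rw [hQ'ev]; omega)
  have hpos2 : 2 ^ (n + 2 * 2 ^ n) ≤ N := by
    refine le_trans ?_ hnP
    apply Nat.pow_le_pow_right (by norm_num)
    refine (pow_two_le n).trans ?_
    exact Nat.pow_le_pow_right (by norm_num) (by rw [hQ'ev]; omega)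
  refine ⟨n, N, 2 ^ n / (2 * n), 2 * n, hmono.trans hnP, by omega, Nat.div_mul_le_self _ _, ?_⟩
  have h1 := first n c3
  have h2 := second n (2 ^ n / (2 * n)) (Nat.div_le_self _ _)
  have h3 := third (R.eval n) n (by
    have := hn₀ n c2
    simp only [Polynomial.eval_add, Polynomial.eval_mul, Polynomial.eval_X, Polynomial.eval_one,
      Polynomial.eval_ofNat] at this
    exact this)
  have h4 : 1 / Real.sqrt (((2 ^ n / (2 * n) : ℕ) : ℝ) + 1) +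
      ((2 ^ n / (2 * n) : ℕ) : ℝ) * (1 / 2) ^ (2 * n) +
      2 ^ n * (2 ^ R.eval n / (2 ^ (2 ^ n) - 1)) ≤ (2 * n + 2) * 2 ^ (-(n : ℝ) / 2) := by
    linarith
  refine le_trans ?_ (c1 (f N) hfN)
  apply mul_le_mul_of_nonneg_right _ (by positivity)
  exact mul_le_mul_of_nonneg_left h4 (by positivity)

open Classical in
theorem cover_easyNE (θ : NPar) (f : ℕ → ℝ)
    (hf : ∀ ε : ℝ, 0 < ε → ∃ᶠ N : ℕ in Filter.atTop,
      f N ≤ (Real.logb 2 (Real.logb 2 N)) ^ ε)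
    (δ : ℝ) (hδ : 0 < δ) : ∃ S : Set (List Bool), (∀ A ∈ EasyNE θ, ∃ σ ∈ S, Extends A σ) ∧
    ∑' σ : S, ENNReal.ofReal (2 ^ (f σ.1.length - σ.1.length)) ≤ ENNReal.ofReal δ := by
  obtain ⟨Q, hQ⟩ := evNE_of_easy θ
  obtain ⟨R, hR⟩ := evNE_bound θ
  obtain ⟨n, N, r, s, hN, hN2, hrs, hb⟩ := asymNE θ R Q f hf δ hδ
  have hev := hR n N r s hN2 hrs
  refine ⟨(fun a : Fin N → Bool => List.ofFn a) '' {a | EvNE θ n N a}, ?_, ?_⟩
  · intro A hA
    refine ⟨List.ofFn (pre N A), ⟨pre N A, hQ A hA n N hN, rfl⟩, ?_⟩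
    intro i hi
    rw [List.getElem_ofFn]
    rfl
  · have hinj : Set.InjOn (fun a : Fin N → Bool => List.ofFn a) {a | EvNE θ n N a} :=
      fun a _ b _ h => List.ofFn_injective h
    rw [tsum_image (fun σ : List Bool => ENNReal.ofReal (2 ^ (f σ.length - σ.length))) hinj]
    simp only [List.length_ofFn]
    rw [tsum_fintype, Finset.sum_const, nsmul_eq_mul, Finset.card_univ]
    rw [← ENNReal.ofReal_natCast, ← ENNReal.ofReal_mul (by positivity)]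
    apply ENNReal.ofReal_le_ofReal
    have h1 : Fintype.card {a : Fin N → Bool | EvNE θ n N a} =
        (univ.filter (fun a : Fin N → Bool => EvNE θ n N a)).card := by
      rw [← Fintype.card_subtype]
      rfl
    have h2 := card_of_Ex (fun a : Fin N → Bool => EvNE θ n N a)
    have h3 : (2 : ℝ) ^ (f N - N) = 2 ^ (-(N : ℝ)) * 2 ^ f N := by
      rw [← Real.rpow_add (by norm_num)]; congr 1; ring
    rw [h1, h3, ← mul_assoc, h2]
    exact (mul_le_mul_of_nonneg_right hev (by positivity)).trans hb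

theorem nullNE (f : ℕ → ℝ)
    (hf : ∀ ε : ℝ, 0 < ε → ∃ᶠ N : ℕ in Filter.atTop, f N ≤ (Real.logb 2 (Real.logb 2 N)) ^ ε)
    (O : Set Oracle) (hO : ∀ A ∈ O, ∃ c : ℝ, c < 1 / 2 ∧ ∃ C : ℝ,
      WithAdviceLen (IsNEXP A) (fun n => c * n + C) (tribes A)ᶜ) : Null f O := by
  intro δ hδ
  obtain ⟨δ', hδ', hsum⟩ := ENNReal.exists_pos_sum_of_countable
    (ENNReal.ofReal_pos.2 hδ).ne' NPar
  choose S hS hSs using fun θ : NPar => cover_easyNE θ f hf (δ' θ) (by exact_mod_cast hδ' θ)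
  refine ⟨⋃ θ, S θ, ?_, ?_⟩
  · intro A hA
    obtain ⟨c, hc, C, hC⟩ := hO A hA
    obtain ⟨θ, hθ⟩ := mem_easyNE hc hC
    obtain ⟨σ, hσ, hE⟩ := hS θ A hθ
    exact ⟨σ, Set.mem_iUnion.2 ⟨θ, hσ⟩, hE⟩
  · refine (ENNReal.tsum_iUnion_le_tsum (fun σ : List Bool =>
      ENNReal.ofReal (2 ^ (f σ.length - σ.length))) S).trans ?_
    refine (ENNReal.tsum_le_tsum hSs).trans ?_
    refine le_trans (le_of_eq ?_) hsum.le
    congr 1
    funext θ
    exact ENNReal.ofReal_coe_nnreal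

end Pool.Agent.H620R2.Gauge
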