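import Pool.Agent.W2helper57.NEX.Defs
import Pool.Agent.W2helper57.PPH.Tie
import Pool.Agent.H620R2.Gauge.C
import Pool.Agent.H620R2.Gauge.S
import Pool.Agent.H620R2.GaugeX.X9
import Pool.Agent.H620R2.GaugeR.R8
import Pool.Agent.H620R2.GaugeX.NonNullX

/-!
# Coding the census
-/

namespace Pool.Agent.H620R2.Gauge

open Pool.Agent.NPC Pool.Agent.H622R2 Finset

namespace Cen

/-- the strings which contain the information -/
def xcode (R : ℕ → Polynomial ℕ) (e n i : ℕ) : List Bool :=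
  List.replicate e true ++ false :: (List.replicate (2 ^ (R e).eval n) true ++ false ::
    (List.replicate n true ++ false :: List.replicate i true))

theorem xcode_inj (R : ℕ → Polynomial ℕ) {e n i e' n' i' : ℕ}
    (h : xcode R e n i = xcode R e' n' i') : e = e' ∧ n = n' ∧ i = i' := by
  obtain ⟨h1, h2⟩ := CC.rep_inj _ _ _ _ h
  obtain ⟨h3, h4⟩ := CC.rep_inj _ _ _ _ h2
  obtain ⟨h5, h6⟩ := CC.rep_inj _ _ _ _ h4
  have h7 := congrArg List.length h6
  simp only [List.length_replicate] at h7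
  exact ⟨h1, h5, h7⟩

theorem lt_length_xcode (R : ℕ → Polynomial ℕ) (e n i : ℕ) :
    2 ^ (R e).eval n < (xcode R e n i).length := by
  unfold xcode
  simp only [List.length_append, List.length_replicate, List.length_cons]
  omega

open Classical in
/-- the oracle -/
noncomputable def Phi (R : ℕ → Polynomial ℕ) (V : ℕ → ℕ → ℕ → Oracle → Prop) (B : Oracle)
    (y : List Bool) : Bool :=
  if h : ∃ p : ℕ × ℕ × ℕ, p.2.2 ≤ p.2.1 ∧ y = xcode R p.1 p.2.1 p.2.2 then
    decide (V h.choose.1 h.choose.2.1 h.choose.2.2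
      (fun z => if _hz : z.length < y.length then Phi R V B z else false))
  else B y
termination_by y.length

theorem Phi_not (R : ℕ → Polynomial ℕ) (V : ℕ → ℕ → ℕ → Oracle → Prop) (B : Oracle)
    (y : List Bool) (h : y ∉ {y | ∃ e n i, i ≤ n ∧ y = xcode R e n i}) : Phi R V B y = B y := by
  rw [Phi, dif_neg]
  rintro ⟨p, hp1, hp2⟩
  exact h ⟨_, _, _, hp1, hp2⟩

open Classical in
theorem Phi_code (R : ℕ → Polynomial ℕ) (V : ℕ → ℕ → ℕ → Oracle → Prop) (B : Oracle)
    (hV : ∀ e n i A A', (∀ z : List Bool, z.length < (xcode R e n i).length → A z = A' z) →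
      (V e n i A ↔ V e n i A')) (e n i : ℕ) (hi : i ≤ n) :
    Phi R V B (xcode R e n i) = true ↔ V e n i (Phi R V B) := by
  have h : ∃ p : ℕ × ℕ × ℕ, p.2.2 ≤ p.2.1 ∧ xcode R e n i = xcode R p.1 p.2.1 p.2.2 :=
    ⟨(e, n, i), hi, rfl⟩
  rw [Phi, dif_pos h, decide_eq_true_iff]
  obtain ⟨h1, h2, h3⟩ := xcode_inj R h.choose_spec.2
  rw [← h1, ← h2, ← h3]
  apply hV
  intro z hz
  rw [dif_pos hz]

/-! ### There are few code strings -/

open Classical in
theorem sparse_nat {K : ℕ} (R : ℕ → Polynomial ℕ)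
    (hR : ∀ e n, (n + e + 1) ^ K ≤ (R e).eval n) (N J : ℕ)
    (hJ : Nat.log 2 (Nat.log 2 N) < (J + 1) ^ K) :
    ((Finset.range N).filter (fun j => str j ∈ {y | ∃ e n i, i ≤ n ∧ y = xcode R e n i})).card ≤
      J ^ 3 := by
  have hP : ∀ j ∈ (Finset.range N).filter
      (fun j => str j ∈ {y | ∃ e n i, i ≤ n ∧ y = xcode R e n i}),
      ∃ p : ℕ × ℕ × ℕ, p ∈ Finset.range J ×ˢ (Finset.range J ×ˢ Finset.range J) ∧
        str j = xcode R p.1 p.2.1 p.2.2 := by
    intro j hj
    rw [Finset.mem_filter, Finset.mem_range] at hj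
    obtain ⟨hjN, e, n, i, hi, he⟩ := hj
    refine ⟨(e, n, i), ?_, he⟩
    have h1 := lt_length_xcode R e n i
    rw [← he, length_str] at h1
    have h2 : Nat.log 2 (j + 1) ≤ Nat.log 2 N := Nat.log_mono_right (by omega)
    have h3 : (R e).eval n ≤ Nat.log 2 (Nat.log 2 N) := by
      apply Nat.le_log_of_pow_le (by norm_num)
      omega
    have h4 := hR e n
    have h5 : (n + e + 1) ^ K < (J + 1) ^ K := by omega
    have h6 : n + e + 1 < J + 1 := lt_of_pow_lt_pow_left₀ K (by omega) h5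
    simp only [Finset.mem_product, Finset.mem_range]
    omega
  choose! φ hφ1 hφ2 using hP
  have h1 : (Finset.range J ×ˢ (Finset.range J ×ˢ Finset.range J)).card = J ^ 3 := by
    rw [Finset.card_product, Finset.card_product, Finset.card_range]
    ring
  rw [← h1]
  apply Finset.card_le_card_of_injOn φ
  · intro j hj
    exact hφ1 j hj
  · intro j hj j' hj' h
    apply str_injective
    rw [hφ2 j hj, hφ2 j' hj', h]

open Classical in
theorem sparse {K : ℕ} (hK1 : 1 ≤ K) (R : ℕ → Polynomial ℕ)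
    (hR : ∀ e n, (n + e + 1) ^ K ≤ (R e).eval n) {ε : ℝ} (hK : 3 ≤ ε * K) :
    ∀ᶠ N : ℕ in Filter.atTop, (((Finset.range N).filter
      (fun j => str j ∈ {y | ∃ e n i, i ≤ n ∧ y = xcode R e n i})).card : ℝ) ≤
      (Real.logb 2 (Real.logb 2 N)) ^ ε := by
  have hK0 : (0 : ℝ) < K := by exact_mod_cast hK1
  filter_upwards [Filter.eventually_ge_atTop (2 ^ (2 ^ 1))] with N hN
  have hN4 : (4 : ℝ) ≤ N := by
    have : 4 ≤ N := by simpa using hN
    exact_mod_cast this
  set L := Real.logb 2 (Real.logb 2 N) with hL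
  have hl : (2 : ℝ) ≤ Real.logb 2 N := by
    rw [Real.le_logb_iff_rpow_le (by norm_num) (by linarith)]
    have h2 : (2 : ℝ) ^ (2 : ℝ) = 4 := by norm_num
    rw [h2]
    exact hN4
  have hL1 : 1 ≤ L := by
    rw [hL, Real.le_logb_iff_rpow_le (by norm_num) (by linarith)]
    simpa using hl
  have hL0 : 0 < L := by linarith
  set J := Nat.floor (L ^ (1 / (K : ℝ))) with hJdef
  have hJle : (J : ℝ) ≤ L ^ (1 / (K : ℝ)) := Nat.floor_le (Real.rpow_nonneg hL0.le _)
  have hlog : ∀ m : ℕ, m ≠ 0 → ((Nat.log 2 m : ℕ) : ℝ) ≤ Real.logb 2 m := by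
    intro m hm
    have hm0 : (0 : ℝ) < m := by positivity
    rw [Real.le_logb_iff_rpow_le (by norm_num) hm0, Real.rpow_natCast]
    have := Nat.pow_log_le_self 2 hm
    exact_mod_cast this
  have hJ : Nat.log 2 (Nat.log 2 N) < (J + 1) ^ K := by
    have h3 : L ^ (1 / (K : ℝ)) < (J : ℝ) + 1 := Nat.lt_floor_add_one _
    have h4 : L < ((J : ℝ) + 1) ^ K := by
      have h5 : (L ^ (1 / (K : ℝ))) ^ K < ((J : ℝ) + 1) ^ K :=
        pow_lt_pow_left₀ h3 (Real.rpow_nonneg hL0.le _) (by omega)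
      have h6 : (L ^ (1 / (K : ℝ))) ^ K = L := by
        rw [one_div, Real.rpow_inv_natCast_pow hL0.le (by omega)]
      rw [h6] at h5
      exact h5
    have h1 := hlog N (by rintro rfl; simp at hN)
    have hlogN : Nat.log 2 N ≠ 0 := by
      have : 0 < Nat.log 2 N := Nat.log_pos (by norm_num) (by
        have : 4 ≤ N := by simpa using hN
        omega)
      omega
    have h2 := hlog (Nat.log 2 N) hlogN
    have h7 : ((Nat.log 2 (Nat.log 2 N) : ℕ) : ℝ) ≤ L := by
      refine h2.trans ?_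
      apply Real.logb_le_logb_of_le (by norm_num)
      · have : (0 : ℝ) < ((Nat.log 2 N : ℕ) : ℝ) := by positivity
        exact this
      · exact h1
    have h8 : ((Nat.log 2 (Nat.log 2 N) : ℕ) : ℝ) < ((J : ℝ) + 1) ^ K := lt_of_le_of_lt h7 h4
    exact_mod_cast h8
  have h9 := sparse_nat R hR N J hJ
  have h10 : ((J ^ 3 : ℕ) : ℝ) ≤ L ^ ε := by
    push_cast
    calc (J : ℝ) ^ 3 ≤ (L ^ (1 / (K : ℝ))) ^ 3 := pow_le_pow_left₀ (by positivity) hJle 3
      _ = L ^ (3 / (K : ℝ)) := by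
          rw [← Real.rpow_natCast, ← Real.rpow_mul hL0.le]
          congr 1
          push_cast
          ring
      _ ≤ L ^ ε := by
          apply Real.rpow_le_rpow_of_exponent_le hL1
          rw [div_le_iff₀ hK0]
          exact hK
  exact le_trans (by exact_mod_cast h9) h10

end Cen

end Pool.Agent.H620R2.Gauge
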