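import Pool.Agent.H568R2.Prob

/-!
# Certificates for the emptiness of blocks: a Sperner argument

There are blocks `(x, y)` with random contents; a test `x` is empty if no block `(x, y)` is full.
If short certificates exist exactly for the empty tests, then the set of the empty tests is known up
to very few possibilities; this has small probability.
-/

namespace Pool.Agent.W2helper57.NEX

open Finset H568R2

section numeric

theorem central_sq (m : ℕ) : (Nat.centralBinom m) ^ 2 * (2 * m + 1) ≤ 16 ^ m := by
  induction m with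
  | zero => simp
  | succ m ih =>
    have h1 := Nat.succ_mul_centralBinom_succ m
    have h2 : ((m + 1) * Nat.centralBinom (m + 1)) ^ 2 * (2 * (m + 1) + 1) =
        4 * (2 * m + 1) * (2 * m + 3) * ((Nat.centralBinom m) ^ 2 * (2 * m + 1)) := by
      rw [h1]; ring
    have h3 : 4 * (2 * m + 1) * (2 * m + 3) * ((Nat.centralBinom m) ^ 2 * (2 * m + 1)) ≤
        4 * (2 * m + 1) * (2 * m + 3) * 16 ^ m := Nat.mul_le_mul_left _ ih
    have h4 : 4 * (2 * m + 1) * (2 * m + 3) * 16 ^ m ≤ (m + 1) ^ 2 * 16 ^ (m + 1) := by
      have : 4 * (2 * m + 1) * (2 * m + 3) ≤ (m + 1) ^ 2 * 16 := by nlinarith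
      calc _ ≤ (m + 1) ^ 2 * 16 * 16 ^ m := Nat.mul_le_mul_right _ this
        _ = _ := by ring
    have h5 : (m + 1) ^ 2 * ((Nat.centralBinom (m + 1)) ^ 2 * (2 * (m + 1) + 1)) ≤
        (m + 1) ^ 2 * 16 ^ (m + 1) := by
      calc _ = ((m + 1) * Nat.centralBinom (m + 1)) ^ 2 * (2 * (m + 1) + 1) := by ring
        _ ≤ _ := h2.le.trans (h3.trans h4)
    exact Nat.le_of_mul_le_mul_left h5 (by positivity)

theorem choose_half_sq (M : ℕ) : (M.choose (M / 2)) ^ 2 * (M + 1) ≤ 4 ^ M := by
  rcases Nat.even_or_odd' M with ⟨m, rfl | rfl⟩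
  · have h1 := central_sq m
    rw [Nat.centralBinom] at h1
    rw [Nat.mul_div_cancel_left m (by norm_num)]
    calc _ ≤ 16 ^ m := h1
      _ = 4 ^ (2 * m) := by rw [pow_mul]; norm_num
  · have h1 := central_sq (m + 1)
    have h2 : (2 * m + 1) / 2 = m := by omega
    rw [h2]
    have h3 : Nat.centralBinom (m + 1) = 2 * (2 * m + 1).choose m := by
      rw [Nat.centralBinom, show 2 * (m + 1) = (2 * m + 1) + 1 by ring,
        Nat.choose_succ_succ, Nat.choose_symm_half]
      ring
    rw [h3] at h1
    have h4 : 16 ^ (m + 1) = 4 * 4 ^ (2 * m + 1) := by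
      rw [show (16 : ℕ) = 4 ^ 2 by norm_num, ← pow_mul]; ring
    rw [h4] at h1
    nlinarith

theorem choose_half_le (M r : ℕ) (h : r ≤ M) :
    ((M.choose (M / 2) : ℕ) : ℝ) / 2 ^ M ≤ 1 / Real.sqrt (r + 1) := by
  have h1 := choose_half_sq M
  have h2 : (((M.choose (M / 2)) ^ 2 * (M + 1) : ℕ) : ℝ) ≤ ((4 ^ M : ℕ) : ℝ) := by exact_mod_cast h1
  push_cast at h2
  have h3 : (0 : ℝ) < Real.sqrt (r + 1) := Real.sqrt_pos.2 (by positivity)
  rw [div_le_div_iff₀ (by positivity) h3, one_mul]
  apply le_of_sq_le_sq _ (by positivity)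
  rw [mul_pow, Real.sq_sqrt (by positivity)]
  have h4 : ((2 : ℝ) ^ M) ^ 2 = 4 ^ M := by rw [← pow_mul, mul_comm, pow_mul]; norm_num
  rw [h4]
  refine le_trans ?_ h2
  have h5 : (r : ℝ) ≤ M := by exact_mod_cast h
  have h6 : (0 : ℝ) ≤ ((M.choose (M / 2) : ℕ) : ℝ) ^ 2 := by positivity
  nlinarith

end numeric

section few

variable {X : Type*} [Fintype X] [DecidableEq X] {Ω : Type*} [Fintype Ω]

/-- few coordinates with the property `P` -/
theorem few {w : Ω → ℝ} (hw : ∀ a, 0 ≤ w a) (hw1 : ∑ a, w a = 1) (P : Ω → Prop) [DecidablePred P]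
    (hP : ∑ a ∈ univ.filter (fun a => ¬ P a), w a ≤ 1 / 2) (r s : ℕ) (h : r * s ≤ Fintype.card X) :
    Ex w (fun ω : X → Ω => if (univ.filter (fun x => P (ω x))).card < r then (1 : ℝ) else 0) ≤
      r * (1 / 2) ^ s := by
  obtain ⟨e⟩ : Nonempty (Fin r × Fin s ↪ X) := by
    apply Function.Embedding.nonempty_of_card_le
    rw [Fintype.card_prod, Fintype.card_fin, Fintype.card_fin]
    exact h
  set Z : Fin r → Finset X := fun j => univ.image fun i : Fin s => e (j, i) with hZ
  have hZcard : ∀ j, (Z j).card = s := by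
    intro j
    rw [hZ]
    simp only
    rw [Finset.card_image_of_injective, Finset.card_univ, Fintype.card_fin]
    intro a b hab
    exact (Prod.mk.inj (e.injective hab)).2
  have hpt : ∀ ω : X → Ω, (if (univ.filter (fun x => P (ω x))).card < r then (1 : ℝ) else 0) ≤
      ∑ j : Fin r, if ∀ i ∈ Z j, ¬ P (ω i) then (1 : ℝ) else 0 := by
    intro ω
    have hnn : ∀ j ∈ (univ : Finset (Fin r)),
        (0 : ℝ) ≤ if ∀ i ∈ Z j, ¬ P (ω i) then (1 : ℝ) else 0 := by
      intro j _
      split_ifs <;> norm_num
    split_ifs with hc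
    · obtain ⟨j, hj⟩ : ∃ j, ∀ i ∈ Z j, ¬ P (ω i) := by
        by_contra hcon
        push Not at hcon
        choose g hg1 hg2 using hcon
        have hg3 : ∀ j, ∃ i : Fin s, e (j, i) = g j := by
          intro j
          have := hg1 j
          rw [hZ] at this
          simp only [Finset.mem_image, Finset.mem_univ, true_and] at this
          exact this
        have hinj : Function.Injective g := by
          intro a b hab
          obtain ⟨i, hi⟩ := hg3 a
          obtain ⟨i', hi'⟩ := hg3 b
          have : e (a, i) = e (b, i') := hi.trans (hab.trans hi'.symm)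
          exact (Prod.mk.inj (e.injective this)).1
        have hsub : univ.image g ⊆ univ.filter (fun x => P (ω x)) := by
          intro x hx
          obtain ⟨j, _, rfl⟩ := Finset.mem_image.1 hx
          simp only [Finset.mem_filter, Finset.mem_univ, true_and]
          exact hg2 j
        have hcard := Finset.card_le_card hsub
        rw [Finset.card_image_of_injective _ hinj, Finset.card_univ, Fintype.card_fin] at hcard
        omega
      calc (1 : ℝ) = if ∀ i ∈ Z j, ¬ P (ω i) then (1 : ℝ) else 0 := by rw [if_pos hj]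
        _ ≤ _ := Finset.single_le_sum hnn (Finset.mem_univ j)
    · exact Finset.sum_nonneg hnn
  refine (Ex_mono hw hpt).trans ?_
  rw [Ex_sum]
  have hj : ∀ j ∈ (univ : Finset (Fin r)), Ex w (fun ω : X → Ω =>
      if ∀ i ∈ Z j, ¬ P (ω i) then (1 : ℝ) else 0) ≤ (1 / 2) ^ s := by
    intro j _
    have h := Ex_indep (I := X) hw1 (fun a => ¬ P a) (Z j) (fun _ => (1 : ℝ))
      (fun _ _ _ _ => rfl)
    simp only [one_mul] at h
    rw [h, Ex_const hw1, mul_one, hZcard]
    exact pow_le_pow_left₀ (Finset.sum_nonneg fun a _ => hw a) hP s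
  refine (Finset.sum_le_sum hj).trans ?_
  rw [Finset.sum_const, Finset.card_univ, Fintype.card_fin, nsmul_eq_mul]

end few

section coupling

variable {Y D : Type*} [Fintype Y] [DecidableEq Y] [Fintype D] [DecidableEq D] (full : D)

/-- no block is full -/
def Zero (ω : Y → D) : Prop := ∀ y, ω y ≠ full

instance (ω : Y → D) : Decidable (Zero full ω) := by unfold Zero; infer_instance

/-- exactly one block is full -/
def One (ω : Y → D) : Prop := ∃ y, ω y = full ∧ ∀ y', ω y' = full → y' = y

open Classical in
/-- the weights of the base contents, up to the factor `1 / |Y → D|` -/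
noncomputable def w1 (ω : Y → D) : ℝ :=
  if Zero full ω then 2 / Fintype.card (Y → D) else if One full ω then 0 else
    1 / Fintype.card (Y → D)

/-- the contents, from the base contents, the place of the possible full block, and a coin -/
def fillIn (c : (Y → D) × (Y × Bool)) : Y → D :=
  if Zero full c.1 ∧ c.2.2 = true then Function.update c.1 c.2.1 full else c.1

theorem w1_nonneg (ω : Y → D) : 0 ≤ w1 full ω := by
  unfold w1
  split_ifs <;> positivity

theorem one_not_zero {ω : Y → D} (h : One full ω) : ¬ Zero full ω := by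
  obtain ⟨y, hy, _⟩ := h
  exact fun h => h y hy

/-- the pairs which become `τ` when a block is filled -/
theorem card_fill (hY : Fintype.card D = Fintype.card Y + 1) (τ : Y → D) (hτ : One full τ) :
    ((univ : Finset ((Y → D) × Y)).filter
      (fun c => Zero full c.1 ∧ Function.update c.1 c.2 full = τ)).card = Fintype.card Y := by
  obtain ⟨y, hy, hu⟩ := hτ
  have h1 : Fintype.card Y = ((univ : Finset D).filter (fun d => d ≠ full)).card := by
    rw [Finset.filter_ne' univ full, Finset.card_erase_of_mem (Finset.mem_univ _), Finset.card_univ,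
      hY]
    simp
  rw [h1]
  symm
  refine Finset.card_bij (fun d _ => (Function.update τ y d, y)) ?_ ?_ ?_
  · intro d hd
    simp only [Finset.mem_filter, Finset.mem_univ, true_and] at hd ⊢
    refine ⟨?_, ?_⟩
    · intro y'
      by_cases h : y' = y
      · subst h; rw [Function.update_self]; exact hd
      · rw [Function.update_of_ne h]
        exact fun h' => h (hu y' h')
    · rw [Function.update_idem, ← hy, Function.update_eq_self]
  · intro d hd d' hd' h
    have h2 := congrFun (Prod.mk.inj h).1 y
    simpa using h2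
  · rintro ⟨ω, y'⟩ hω
    simp only [Finset.mem_filter, Finset.mem_univ, true_and] at hω
    obtain ⟨h2, h3⟩ := hω
    have h4 : y' = y := by
      apply hu
      rw [← h3, Function.update_self]
    subst h4
    refine ⟨ω y', ?_, ?_⟩
    · simp only [Finset.mem_filter, Finset.mem_univ, true_and]
      exact h2 y'
    · rw [← h3, Function.update_idem, Function.update_eq_self]

theorem not_fill {τ : Y → D} (hτ : ¬ One full τ) (ω : Y → D) (y : Y) (hω : Zero full ω) :
    Function.update ω y full ≠ τ := by
  rintro rfl
  apply hτ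
  refine ⟨y, Function.update_self _ _ _, fun y' h => ?_⟩
  by_contra hne
  rw [Function.update_of_ne hne] at h
  exact hω y' h

/-- the weights of the triples -/
noncomputable def wt (c : (Y → D) × (Y × Bool)) : ℝ :=
  w1 full c.1 * (1 / Fintype.card Y * (1 / 2))

theorem push (hY : Fintype.card D = Fintype.card Y + 1) (hY0 : 0 < Fintype.card Y) (τ : Y → D) :
    (1 / Fintype.card (Y → D) : ℝ) =
      ∑ c ∈ univ.filter (fun c : (Y → D) × (Y × Bool) => fillIn full c = τ), wt full c := by
  classical
  have hYR : (0 : ℝ) < Fintype.card Y := by exact_mod_cast hY0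
  -- split according to the coin
  have h1 : ∑ c ∈ univ.filter (fun c : (Y → D) × (Y × Bool) => fillIn full c = τ), wt full c =
      (∑ c : (Y → D) × Y, if fillIn full (c.1, (c.2, false)) = τ then
        w1 full c.1 * (1 / Fintype.card Y * (1 / 2)) else 0) +
      ∑ c : (Y → D) × Y, if fillIn full (c.1, (c.2, true)) = τ then
        w1 full c.1 * (1 / Fintype.card Y * (1 / 2)) else 0 := by
    rw [Finset.sum_filter, Fintype.sum_prod_type, ← Finset.sum_add_distrib, Fintype.sum_prod_type]
    refine Finset.sum_congr rfl fun ω _ => ?_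
    rw [Fintype.sum_prod_type]
    refine Finset.sum_congr rfl fun y _ => ?_
    rw [Fintype.sum_bool]
    simp only [wt]
    ring
  have h2 : (∑ c : (Y → D) × Y, if fillIn full (c.1, (c.2, false)) = τ then
        w1 full c.1 * (1 / Fintype.card Y * (1 / 2)) else 0) = w1 full τ / 2 := by
    rw [Fintype.sum_prod_type]
    rw [Finset.sum_eq_single τ]
    · have : ∀ y : Y, (if fillIn full (τ, (y, false)) = τ then
          w1 full τ * (1 / (Fintype.card Y : ℝ) * (1 / 2)) else 0) =
          w1 full τ * (1 / (Fintype.card Y : ℝ) * (1 / 2)) := by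
        intro y
        rw [if_pos]
        simp [fillIn]
      rw [Finset.sum_congr rfl (fun y _ => this y), Finset.sum_const, Finset.card_univ,
        nsmul_eq_mul]
      field_simp
    · intro ω _ hne
      apply Finset.sum_eq_zero
      intro y _
      rw [if_neg]
      simpa [fillIn] using hne
    · intro h; exact absurd (Finset.mem_univ _) h
  rw [h1, h2]
  by_cases hz : Zero full τ
  · have h3 : (∑ c : (Y → D) × Y, if fillIn full (c.1, (c.2, true)) = τ then
        w1 full c.1 * (1 / (Fintype.card Y : ℝ) * (1 / 2)) else 0) = 0 := by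
      apply Finset.sum_eq_zero
      rintro ⟨ω, y⟩ _
      rw [if_neg]
      intro h
      unfold fillIn at h
      by_cases hω : Zero full ω
      · rw [if_pos ⟨hω, rfl⟩] at h
        exact not_fill full (fun h' => one_not_zero full h' hz) ω y hω h
      · rw [if_neg (fun h' => hω h'.1)] at h
        simp only at h
        rw [h] at hω
        exact hω hz
    rw [h3, add_zero]
    unfold w1
    rw [if_pos hz]
    ring
  · by_cases ho : One full τ
    · have h3 : (∑ c : (Y → D) × Y, if fillIn full (c.1, (c.2, true)) = τ then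
          w1 full c.1 * (1 / (Fintype.card Y : ℝ) * (1 / 2)) else 0) =
          ∑ c ∈ (univ : Finset ((Y → D) × Y)).filter
            (fun c => Zero full c.1 ∧ Function.update c.1 c.2 full = τ),
            (2 / Fintype.card (Y → D) : ℝ) * (1 / (Fintype.card Y : ℝ) * (1 / 2)) := by
        rw [Finset.sum_filter]
        refine Finset.sum_congr rfl fun c _ => ?_
        obtain ⟨ω, y⟩ := c
        by_cases hω : Zero full ω
        · have e : fillIn full (ω, (y, true)) = Function.update ω y full := by
            unfold fillIn; rw [if_pos ⟨hω, rfl⟩]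
          simp only [e, hω, true_and]
          have : w1 full ω = 2 / Fintype.card (Y → D) := by unfold w1; rw [if_pos hω]
          rw [this]
        · have e : fillIn full (ω, (y, true)) = ω := by
            unfold fillIn; rw [if_neg (fun h' => hω h'.1)]
          simp only [e, hω, false_and, if_false]
          by_cases hωτ : ω = τ
          · subst hωτ
            rw [if_pos rfl]
            have : w1 full ω = 0 := by unfold w1; rw [if_neg hω, if_pos ho]
            rw [this, zero_mul]
          · rw [if_neg hωτ]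
      rw [h3, Finset.sum_const, card_fill full hY τ ho, nsmul_eq_mul]
      have : w1 full τ = 0 := by unfold w1; rw [if_neg hz, if_pos ho]
      rw [this]
      field_simp
      ring
    · have h3 : (∑ c : (Y → D) × Y, if fillIn full (c.1, (c.2, true)) = τ then
          w1 full c.1 * (1 / (Fintype.card Y : ℝ) * (1 / 2)) else 0) = w1 full τ / 2 := by
        rw [Fintype.sum_prod_type, Finset.sum_eq_single τ]
        · have : ∀ y : Y, (if fillIn full (τ, (y, true)) = τ then
              w1 full τ * (1 / (Fintype.card Y : ℝ) * (1 / 2)) else 0) =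
              w1 full τ * (1 / (Fintype.card Y : ℝ) * (1 / 2)) := by
            intro y
            rw [if_pos]
            simp [fillIn, hz]
          rw [Finset.sum_congr rfl (fun y _ => this y), Finset.sum_const, Finset.card_univ,
            nsmul_eq_mul]
          field_simp
        · intro ω _ hne
          apply Finset.sum_eq_zero
          intro y _
          rw [if_neg]
          intro h
          unfold fillIn at h
          by_cases hω : Zero full ω
          · rw [if_pos ⟨hω, rfl⟩] at h
            exact not_fill full ho ω y hω h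
          · rw [if_neg (fun h' => hω h'.1)] at h
            exact hne h
        · intro h; exact absurd (Finset.mem_univ _) h
      rw [h3]
      unfold w1
      rw [if_neg hz, if_neg ho]
      ring

theorem w1_sum (hY : Fintype.card D = Fintype.card Y + 1) (hY0 : 0 < Fintype.card Y) :
    ∑ ω, w1 (Y := Y) full ω = 1 := by
  classical
  have hYR : (0 : ℝ) < Fintype.card Y := by exact_mod_cast hY0
  have hD : 0 < Fintype.card (Y → D) := by
    have : Nonempty D := ⟨full⟩
    exact Fintype.card_pos
  have hDR : (0 : ℝ) < Fintype.card (Y → D) := by exact_mod_cast hD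
  have h1 : ∑ τ : Y → D, (1 / Fintype.card (Y → D) : ℝ) = 1 := by
    rw [Finset.sum_const, Finset.card_univ, nsmul_eq_mul]
    field_simp
  rw [Finset.sum_congr rfl (fun τ _ => push full hY hY0 τ)] at h1
  rw [Finset.sum_fiberwise_of_maps_to (fun c _ => Finset.mem_univ (fillIn full c))] at h1
  rw [Fintype.sum_prod_type] at h1
  rw [← h1]
  refine Finset.sum_congr rfl fun ω _ => ?_
  rw [Fintype.sum_prod_type]
  simp only [wt, Finset.sum_const, Finset.card_univ, nsmul_eq_mul, Fintype.card_bool]
  field_simp
  push_cast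
  ring

theorem pow_bound {m : ℕ} (hm : 2 ≤ m) (he : Even m) :
    (1 : ℝ) / 4 ≤ ((m - 1 : ℝ) / m) ^ (m - 1) := by
  obtain ⟨k, rfl⟩ := he
  have hk : 1 ≤ k := by omega
  have hkR : (1 : ℝ) ≤ k := by exact_mod_cast hk
  have e : (((k + k : ℕ) : ℝ) - 1) / ((k + k : ℕ) : ℝ) = 1 + (-(1 / (2 * k))) := by
    push_cast
    field_simp
    ring
  rw [e]
  have h1 : (-2 : ℝ) ≤ -(1 / (2 * k)) := by
    have : (1 : ℝ) / (2 * k) ≤ 1 := by
      rw [div_le_one (by positivity)]; linarith
    linarith
  have h2 := one_add_mul_le_pow h1 k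
  have h3 : (1 : ℝ) / 2 ≤ (1 + (-(1 / (2 * (k : ℝ))))) ^ k := by
    refine le_trans (le_of_eq ?_) h2
    field_simp
    ring
  have h4 : (0 : ℝ) ≤ 1 + (-(1 / (2 * (k : ℝ)))) := by
    have : (1 : ℝ) / (2 * k) ≤ 1 := by
      rw [div_le_one (by positivity)]; linarith
    linarith
  have h5 : (1 : ℝ) + (-(1 / (2 * (k : ℝ)))) ≤ 1 := by
    have : (0 : ℝ) ≤ 1 / (2 * k) := by positivity
    linarith
  calc (1 : ℝ) / 4 = (1 / 2) * (1 / 2) := by norm_num
    _ ≤ (1 + (-(1 / (2 * (k : ℝ))))) ^ k * (1 + (-(1 / (2 * (k : ℝ))))) ^ k := by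
        apply mul_le_mul h3 h3 (by norm_num) (by positivity)
    _ = (1 + (-(1 / (2 * (k : ℝ))))) ^ (k + k) := by rw [pow_add]
    _ ≤ (1 + (-(1 / (2 * (k : ℝ))))) ^ (k + k - 1) :=
        pow_le_pow_of_le_one h4 h5 (Nat.sub_le _ _)

theorem zero_density (hY : Fintype.card D = Fintype.card Y + 1) (hD : Even (Fintype.card D))
    (hY0 : 0 < Fintype.card Y) :
    ∑ ω ∈ univ.filter (fun ω : Y → D => ¬ Zero full ω), w1 full ω ≤ 1 / 2 := by
  classical
  have h1 := w1_sum (Y := Y) full hY hY0
  rw [← Finset.sum_filter_add_sum_filter_not univ (fun ω : Y → D => Zero full ω)] at h1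
  have h2 : ∑ ω ∈ univ.filter (fun ω : Y → D => Zero full ω), w1 full ω =
      ((univ.filter (fun ω : Y → D => Zero full ω)).card : ℝ) * (2 / Fintype.card (Y → D)) := by
    rw [← nsmul_eq_mul, ← Finset.sum_const]
    refine Finset.sum_congr rfl fun ω hω => ?_
    unfold w1
    rw [if_pos (Finset.mem_filter.1 hω).2]
  have h3 : (univ.filter (fun ω : Y → D => Zero full ω)).card =
      (Fintype.card Y) ^ Fintype.card Y := by
    have : (univ.filter (fun ω : Y → D => Zero full ω)) =
        Fintype.piFinset (fun _ : Y => (univ : Finset D).filter (fun d => d ≠ full)) := by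
      ext ω
      simp only [Finset.mem_filter, Finset.mem_univ, true_and, Fintype.mem_piFinset]
      rfl
    rw [this, Fintype.card_piFinset, Finset.prod_const, Finset.card_univ]
    congr 1
    rw [Finset.filter_ne' univ full, Finset.card_erase_of_mem (Finset.mem_univ _), Finset.card_univ,
      hY]
    simp
  have h4 := pow_bound (m := Fintype.card D) (by omega) hD
  have h5 : Fintype.card D - 1 = Fintype.card Y := by omega
  have h6 : ((Fintype.card D : ℝ) - 1) = Fintype.card Y := by rw [hY]; push_cast; ring
  rw [h5, h6, div_pow] at h4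
  have h7 : (Fintype.card (Y → D) : ℝ) = (Fintype.card D : ℝ) ^ Fintype.card Y := by
    rw [Fintype.card_fun]
    push_cast
    rfl
  rw [h2, h3, h7] at h1
  push_cast at h1
  have h8 : (Fintype.card Y : ℝ) ^ Fintype.card Y * (2 / (Fintype.card D : ℝ) ^ Fintype.card Y) =
      2 * ((Fintype.card Y : ℝ) ^ Fintype.card Y / (Fintype.card D : ℝ) ^ Fintype.card Y) := by
    ring
  rw [h8] at h1
  linarith

end coupling

section sperner

variable {X : Type*} [Fintype X] [DecidableEq X]

/-- Families of coin vectors which are antichains on the coordinates in `X'`. -/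
theorem antichain_card (X' : Finset X) (F : Finset (X → Bool))
    (hF : ∀ s ∈ F, ∀ t ∈ F, (∀ x ∈ X', s x = true → t x = true) → ∀ x ∈ X', t x = true → s x = true) :
    (F.card : ℝ) ≤ (X'.card.choose (X'.card / 2) : ℕ) * 2 ^ (Fintype.card X - X'.card) := by
  classical
  set φ : (X → Bool) → Finset X' := fun s => univ.filter (fun x : X' => s x = true) with hφ
  have hanti : IsAntichain (· ⊆ ·) ((F.image φ : Finset (Finset X')) : Set (Finset X')) := by
    intro a ha b hb hab hsub
    rw [Finset.mem_coe, Finset.mem_image] at ha hb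
    obtain ⟨s, hs, rfl⟩ := ha
    obtain ⟨t, ht, rfl⟩ := hb
    apply hab
    have h1 : ∀ x ∈ X', s x = true → t x = true := by
      intro x hx hsx
      have h2 : (⟨x, hx⟩ : X') ∈ φ s := by simp [hφ, hsx]
      have h3 := hsub h2
      simpa [hφ] using h3
    have h2 := hF s hs t ht h1
    ext x
    simp only [hφ, Finset.mem_filter, Finset.mem_univ, true_and]
    exact ⟨h1 x x.2, h2 x x.2⟩
  have h1 := hanti.sperner
  rw [Fintype.card_coe] at h1
  have h2 : F.card ≤ (F.image φ).card * Fintype.card ({x : X // x ∉ X'} → Bool) := by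
    rw [← Finset.card_univ, ← Finset.card_product]
    apply Finset.card_le_card_of_injOn (fun s => (φ s, fun x : {x : X // x ∉ X'} => s x))
    · intro s hs
      rw [Finset.mem_coe] at hs ⊢
      rw [Finset.mem_product]
      exact ⟨Finset.mem_image_of_mem _ hs, Finset.mem_univ _⟩
    · intro s _ t _ hst
      rw [Prod.mk.injEq] at hst
      funext x
      by_cases hx : x ∈ X'
      · have h3 : (⟨x, hx⟩ : X') ∈ φ s ↔ (⟨x, hx⟩ : X') ∈ φ t := by rw [hst.1]
        simp only [hφ, Finset.mem_filter, Finset.mem_univ, true_and] at h3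
        rwa [Bool.eq_iff_iff]
      · exact congrFun hst.2 ⟨x, hx⟩
  have h3 : Fintype.card ({x : X // x ∉ X'} → Bool) = 2 ^ (Fintype.card X - X'.card) := by
    rw [Fintype.card_fun, Fintype.card_bool, Fintype.card_subtype_compl, Fintype.card_coe]
  rw [h3] at h2
  have h4 : F.card ≤ X'.card.choose (X'.card / 2) * 2 ^ (Fintype.card X - X'.card) :=
    h2.trans (Nat.mul_le_mul_right _ h1)
  exact_mod_cast h4

end sperner

section main

variable {X : Type*} [Fintype X] [DecidableEq X] {Y D : Type*} [Fintype Y] [DecidableEq Y]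
  [Fintype D] [DecidableEq D] (full : D)

/-- the contents from the base contents, the places and the coins -/
def cfg (ω : X → Y → D) (y : X → Y) (s : X → Bool) (x : X) : Y → D :=
  fillIn full (ω x, (y x, s x))

theorem cfg_zero (ω : X → Y → D) (y : X → Y) (s : X → Bool) (x : X) :
    Zero full (cfg full ω y s x) ↔ Zero full (ω x) ∧ s x = false := by
  unfold cfg fillIn
  by_cases h1 : Zero full (ω x)
  · cases h2 : s x with
    | true =>
      rw [if_pos ⟨h1, rfl⟩]
      simp only [h1, true_and, Bool.true_eq_false, iff_false]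
      intro h
      exact h (y x) (Function.update_self _ _ _)
    | false => simp [h1]
  · rw [if_neg (fun h => h1 h.1)]
    simp [h1]

open Classical in
/-- the right answers -/
def Good (G : X → (X → Y → D) → Prop) (ω : X → Y → D) : Prop :=
  ∀ x, G x ω ↔ Zero full (ω x)

variable {G : X → (X → Y → D) → Prop} {q : ℕ}

/-- the bad event: the certificate for some test contains a hidden place of a test with the coin
`false` -/
def Bad (Q : X → (X → Y → D) → Finset (X × Y)) (ω : X → Y → D) (y : X → Y) (s : X → Bool) : Prop :=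
  ∃ x₀ x' : X, Zero full (ω x') ∧ s x' = false ∧ (x', y x') ∈ Q x₀ (cfg full ω y s)

theorem not_both {Q : X → (X → Y → D) → Finset (X × Y)}
    (hQ : ∀ x ω, G x ω → ∀ ω', (∀ p ∈ Q x ω, ω' p.1 p.2 = ω p.1 p.2) → G x ω')
    {ω : X → Y → D} {y : X → Y} {s t : X → Bool} (hs : Good full G (cfg full ω y s))
    (ht : Good full G (cfg full ω y t)) (hb : ¬ Bad full Q ω y s)
    (hst : ∀ x, Zero full (ω x) → s x = true → t x = true) :
    ∀ x, Zero full (ω x) → t x = true → s x = true := by
  intro x₀ hx₀ htx₀
  by_contra hsx₀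
  rw [Bool.not_eq_true] at hsx₀
  have h1 : G x₀ (cfg full ω y s) := (hs x₀).2 ((cfg_zero full ω y s x₀).2 ⟨hx₀, hsx₀⟩)
  have h2 : G x₀ (cfg full ω y t) := by
    apply hQ x₀ _ h1
    rintro ⟨x', b⟩ hp
    simp only
    unfold cfg fillIn
    simp only
    by_cases hz : Zero full (ω x')
    · cases hsx : s x' with
      | true => rw [hst x' hz hsx]
      | false =>
        have hne : b ≠ y x' := by
          intro h
          apply hb
          exact ⟨x₀, x', hz, hsx, by rw [← h]; exact hp⟩
        cases htx : t x' with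
        | false => rfl
        | true =>
          rw [if_pos ⟨hz, rfl⟩, if_neg (by simp), Function.update_of_ne hne]
    · rw [if_neg (fun h => hz h.1), if_neg (fun h => hz h.1)]
  have h3 := (ht x₀).1 h2
  rw [cfg_zero] at h3
  rw [htx₀] at h3
  simp at h3

/-- the places have the uniform distribution -/
noncomputable def wY (Y : Type*) [Fintype Y] : Y → ℝ := fun _ => 1 / Fintype.card Y

theorem wY_nonneg (y : Y) : 0 ≤ wY Y y := by unfold wY; positivity

theorem wY_sum (hY0 : 0 < Fintype.card Y) : ∑ y, wY Y y = 1 := by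
  have hYR : (0 : ℝ) < Fintype.card Y := by exact_mod_cast hY0
  unfold wY
  rw [Finset.sum_const, Finset.card_univ, nsmul_eq_mul]
  field_simp

open Classical in
theorem bad_bound (hY0 : 0 < Fintype.card Y) (Q : X → (X → Y → D) → Finset (X × Y))
    (hQc : ∀ x ω, (Q x ω).card ≤ q) (ω : X → Y → D) (s : X → Bool) :
    Ex (wY Y) (fun y : X → Y => if Bad full Q ω y s then (1 : ℝ) else 0) ≤
      Fintype.card X * (q / Fintype.card Y) := by
  have hYR : (0 : ℝ) < Fintype.card Y := by exact_mod_cast hY0
  set X' : Finset X := univ.filter (fun x' => Zero full (ω x') ∧ s x' = false) with hX'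
  have h1 : ∀ y : X → Y, (if Bad full Q ω y s then (1 : ℝ) else 0) ≤
      ∑ x₀ : X, ∑ x' ∈ X', if (x', y x') ∈ Q x₀ (cfg full ω y s) then (1 : ℝ) else 0 := by
    intro y
    split_ifs with hb
    · obtain ⟨x₀, x', hz, hs, hm⟩ := hb
      have h2 : (1 : ℝ) ≤ ∑ x' ∈ X', if (x', y x') ∈ Q x₀ (cfg full ω y s) then (1 : ℝ) else 0 := by
        refine le_trans ?_ (Finset.single_le_sum (f := fun x' =>
          if (x', y x') ∈ Q x₀ (cfg full ω y s) then (1 : ℝ) else 0)
          (fun x _ => by positivity) (show x' ∈ X' by simp [hX', hz, hs]))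
        rw [if_pos hm]
      refine h2.trans (Finset.single_le_sum (f := fun x₀ => ∑ x' ∈ X',
        if (x', y x') ∈ Q x₀ (cfg full ω y s) then (1 : ℝ) else 0)
        (fun x _ => Finset.sum_nonneg fun _ _ => by positivity) (Finset.mem_univ x₀))
    · exact Finset.sum_nonneg fun _ _ => Finset.sum_nonneg fun _ _ => by positivity
  refine (Ex_mono wY_nonneg h1).trans ?_
  rw [Ex_sum]
  have h2 : ∀ x₀ ∈ (univ : Finset X), Ex (wY Y) (fun y : X → Y => ∑ x' ∈ X',
      if (x', y x') ∈ Q x₀ (cfg full ω y s) then (1 : ℝ) else 0) ≤ q / Fintype.card Y := by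
    intro x₀ _
    rw [Ex_sum]
    have h3 : ∀ x' ∈ X', Ex (wY Y) (fun y : X → Y =>
        if (x', y x') ∈ Q x₀ (cfg full ω y s) then (1 : ℝ) else 0) =
        Ex (wY Y) (fun y : X → Y => (1 / Fintype.card Y : ℝ) *
          ((Q x₀ (cfg full ω y s)).filter (fun p => p.1 = x')).card) := by
      intro x' hx'
      simp only [hX', Finset.mem_filter, Finset.mem_univ, true_and] at hx'
      rw [Ex_resample (wY_sum hY0) _ x']
      congr 1
      funext y
      have h4 : ∀ a : Y, cfg full ω (Function.update y x' a) s = cfg full ω y s := by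
        intro a
        funext x
        unfold cfg
        by_cases hx : x = x'
        · subst hx
          unfold fillIn
          rw [if_neg (by simp [hx'.2]), if_neg (by simp [hx'.2])]
        · rw [Function.update_of_ne hx]
      simp only [h4, Function.update_self, wY]
      rw [← Finset.mul_sum]
      congr 1
      rw [Finset.sum_boole]
      congr 1
      apply Finset.card_bij (fun a _ => (x', a))
      · intro a ha
        rw [Finset.mem_filter] at ha
        rw [Finset.mem_filter]
        exact ⟨ha.2, rfl⟩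
      · intro a _ b _ h
        exact (Prod.mk.inj h).2
      · rintro ⟨x, b⟩ hb
        simp only [Finset.mem_filter, Finset.mem_univ, true_and] at hb ⊢
        obtain ⟨hb1, rfl⟩ := hb
        exact ⟨b, hb1, rfl⟩
    rw [Finset.sum_congr rfl h3, ← Ex_sum]
    refine (Ex_mono wY_nonneg (G := fun _ => (q : ℝ) / Fintype.card Y) fun y => ?_).trans
      (le_of_eq (Ex_const (wY_sum hY0) _))
    rw [← Finset.mul_sum, ← Nat.cast_sum]
    have h5 : ∑ x' ∈ X', ((Q x₀ (cfg full ω y s)).filter (fun p => p.1 = x')).card ≤ q := by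
      refine le_trans ?_ (hQc x₀ (cfg full ω y s))
      rw [← Finset.card_biUnion]
      · apply Finset.card_le_card
        intro p hp
        obtain ⟨x', _, h⟩ := Finset.mem_biUnion.1 hp
        exact (Finset.mem_filter.1 h).1
      · intro a _ b _ hab
        rw [Function.onFun, Finset.disjoint_left]
        intro p hp hp'
        exact hab ((Finset.mem_filter.1 hp).2.symm.trans (Finset.mem_filter.1 hp').2)
    have h6 : ((∑ x' ∈ X', ((Q x₀ (cfg full ω y s)).filter (fun p => p.1 = x')).card : ℕ) : ℝ) ≤
        q := by exact_mod_cast h5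
    rw [one_div, inv_mul_eq_div]
    exact div_le_div_of_nonneg_right h6 hYR.le
  refine (Finset.sum_le_sum h2).trans ?_
  rw [Finset.sum_const, Finset.card_univ, nsmul_eq_mul]

/-- the coins are fair -/
noncomputable def wB : Bool → ℝ := fun _ => 1 / 2

theorem wB_nonneg (b : Bool) : 0 ≤ wB b := by unfold wB; norm_num

theorem wB_sum : ∑ b, wB b = 1 := by
  rw [Fintype.sum_bool]; unfold wB; norm_num

open Classical in
theorem good_bound (Q : X → (X → Y → D) → Finset (X × Y))
    (hQ : ∀ x ω, G x ω → ∀ ω', (∀ p ∈ Q x ω, ω' p.1 p.2 = ω p.1 p.2) → G x ω')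
    (ω : X → Y → D) (y : X → Y) (r : ℕ)
    (hr : r ≤ (univ.filter (fun x => Zero full (ω x))).card) :
    Ex wB (fun s : X → Bool =>
      if Good full G (cfg full ω y s) ∧ ¬ Bad full Q ω y s then (1 : ℝ) else 0) ≤
      1 / Real.sqrt (r + 1) := by
  set X' : Finset X := univ.filter (fun x => Zero full (ω x)) with hX'
  set F : Finset (X → Bool) := univ.filter
    (fun s => Good full G (cfg full ω y s) ∧ ¬ Bad full Q ω y s) with hF
  have h1 : Ex wB (fun s : X → Bool =>
      if Good full G (cfg full ω y s) ∧ ¬ Bad full Q ω y s then (1 : ℝ) else 0) =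
      (1 / 2) ^ Fintype.card X * F.card := by
    unfold Ex wB
    simp only [Finset.prod_const, Finset.card_univ]
    rw [← Finset.mul_sum, Finset.sum_boole]
  have h2 := antichain_card X' F (by
    intro s hs t ht hst x hx
    simp only [hF, Finset.mem_filter, Finset.mem_univ, true_and] at hs ht
    simp only [hX', Finset.mem_filter, Finset.mem_univ, true_and] at hst hx
    exact not_both full hQ hs.1 ht.1 hs.2 hst x hx)
  rw [h1]
  refine le_trans ?_ (choose_half_le X'.card r hr)
  have h3 : X'.card ≤ Fintype.card X := Finset.card_le_univ _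
  have h4 : (2 : ℝ) ^ Fintype.card X = 2 ^ (Fintype.card X - X'.card) * 2 ^ X'.card := by
    rw [← pow_add]; congr 1; omega
  rw [one_div, inv_pow, inv_mul_eq_div, h4]
  rw [div_le_div_iff₀ (by positivity) (by positivity)]
  calc (F.card : ℝ) * 2 ^ X'.card ≤
      ((X'.card.choose (X'.card / 2) : ℕ) * 2 ^ (Fintype.card X - X'.card)) * 2 ^ X'.card :=
        mul_le_mul_of_nonneg_right h2 (by positivity)
    _ = _ := by ring

open Classical in
/-- **The main estimate.** -/
theorem core (hY : Fintype.card D = Fintype.card Y + 1) (hD : Even (Fintype.card D))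
    (hY0 : 0 < Fintype.card Y)
    (hG : ∀ x ω, G x ω → ∃ Q : Finset (X × Y), Q.card ≤ q ∧
      ∀ ω', (∀ p ∈ Q, ω' p.1 p.2 = ω p.1 p.2) → G x ω')
    (r s : ℕ) (hrs : r * s ≤ Fintype.card X) :
    Ex (fun _ : Y → D => (1 / Fintype.card (Y → D) : ℝ))
      (fun ω : X → Y → D => if Good full G ω then (1 : ℝ) else 0) ≤
      1 / Real.sqrt (r + 1) + r * (1 / 2) ^ s + Fintype.card X * (q / Fintype.card Y) := by
  -- the certificates
  have hQex : ∀ x (ω : X → Y → D), ∃ Q : Finset (X × Y), Q.card ≤ q ∧
      (G x ω → ∀ ω', (∀ p ∈ Q, ω' p.1 p.2 = ω p.1 p.2) → G x ω') := by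
    intro x ω
    by_cases h : G x ω
    · obtain ⟨Q, h1, h2⟩ := hG x ω h
      exact ⟨Q, h1, fun _ => h2⟩
    · exact ⟨∅, by simp, fun h' => absurd h' h⟩
  choose Q hQc hQ using hQex
  rw [← Ex_push (fillIn full) (wt full) (fun _ : Y → D => (1 / Fintype.card (Y → D) : ℝ))
    (push full hY hY0)]
  have e1 : Ex (wt full) (fun c : X → (Y → D) × (Y × Bool) =>
      if Good full G (fun i => fillIn full (c i)) then (1 : ℝ) else 0) =
      Ex (w1 full) (fun ω : X → Y → D => Ex (wY Y) (fun y : X → Y => Ex wB (fun s : X → Bool =>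
        if Good full G (cfg full ω y s) then (1 : ℝ) else 0))) := by
    have h1 : wt (Y := Y) full = fun c : (Y → D) × (Y × Bool) =>
        w1 full c.1 * (fun d : Y × Bool => wY Y d.1 * wB d.2) c.2 := rfl
    rw [h1]
    refine (Ex_prod (I := X) (w1 full) (fun d : Y × Bool => wY Y d.1 * wB d.2)
      (fun c => if Good full G (fun i => fillIn full (c i)) then (1 : ℝ) else 0)).trans ?_
    congr 1
    funext ω
    exact Ex_prod (I := X) (wY Y) wB (fun β =>
      if Good full G (fun i => fillIn full (ω i, β i)) then (1 : ℝ) else 0)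
  rw [e1]
  have hpt : ∀ ω : X → Y → D, Ex (wY Y) (fun y : X → Y => Ex wB (fun s : X → Bool =>
      if Good full G (cfg full ω y s) then (1 : ℝ) else 0)) ≤
      ((1 / Real.sqrt (r + 1) + Fintype.card X * (q / Fintype.card Y)) +
      (if (univ.filter (fun x => Zero full (ω x))).card < r then (1 : ℝ) else 0)) := by
    intro ω
    have hle1 : Ex (wY Y) (fun y : X → Y => Ex wB (fun s : X → Bool =>
        if Good full G (cfg full ω y s) then (1 : ℝ) else 0)) ≤ 1 := by
      refine (Ex_mono wY_nonneg (G := fun _ => (1 : ℝ)) fun y => ?_).trans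
        (le_of_eq (Ex_const (wY_sum hY0) _))
      refine (Ex_mono wB_nonneg (G := fun _ => (1 : ℝ)) fun s => ?_).trans
        (le_of_eq (Ex_const wB_sum _))
      split_ifs <;> norm_num
    have hpos : (0 : ℝ) ≤ 1 / Real.sqrt (r + 1) + Fintype.card X * (q / Fintype.card Y) := by
      positivity
    by_cases hr : (univ.filter (fun x => Zero full (ω x))).card < r
    · rw [if_pos hr]
      linarith
    · rw [if_neg hr, add_zero]
      have h1 : ∀ y : X → Y, Ex wB (fun s : X → Bool =>
          if Good full G (cfg full ω y s) then (1 : ℝ) else 0) ≤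
          1 / Real.sqrt (r + 1) + Ex wB (fun s : X → Bool =>
            if Bad full Q ω y s then (1 : ℝ) else 0) := by
        intro y
        refine le_trans ?_ (add_le_add_left (good_bound full Q hQ ω y r (not_lt.1 hr)) _)
        rw [← Ex_add]
        apply Ex_mono wB_nonneg
        intro s
        by_cases hg : Good full G (cfg full ω y s)
        · by_cases hb : Bad full Q ω y s
          · simp [hg, hb]
          · simp [hg, hb]
        · rw [if_neg hg]
          positivity
      refine (Ex_mono wY_nonneg h1).trans ?_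
      rw [Ex_add, Ex_const (wY_sum hY0)]
      apply add_le_add_right
      have h2 : Ex (wY Y) (fun y : X → Y => Ex wB (fun s : X → Bool =>
          if Bad full Q ω y s then (1 : ℝ) else 0)) =
          Ex wB (fun s : X → Bool => Ex (wY Y) (fun y : X → Y =>
            if Bad full Q ω y s then (1 : ℝ) else 0)) := by
        unfold Ex
        simp only [Finset.mul_sum]
        rw [Finset.sum_comm]
        refine Finset.sum_congr rfl fun s _ => Finset.sum_congr rfl fun y _ => ?_
        ring
      rw [h2]
      refine (Ex_mono wB_nonneg fun s => bad_bound full hY0 Q hQc ω s).trans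
        (le_of_eq (Ex_const wB_sum _))
  refine (Ex_mono (w1_nonneg full) hpt).trans ?_
  rw [Ex_add, Ex_const (w1_sum full hY hY0)]
  have h3 := few (X := X) (w1_nonneg full) (w1_sum full hY hY0) (Zero full)
    (zero_density full hY hD hY0) r s hrs
  linarith

end main

end Pool.Agent.W2helper57.NEX
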