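import Pool.Agent.W2helper57.NEX.Core
import Pool.Agent.H620R2.Gauge.Comb

/-!
# The estimate for Boolean vectors
-/

namespace Pool.Agent.W2helper57.NEX

open Finset H568R2 Pool.Agent.H620R2.Gauge

section patch

variable {I J : Type*} [Fintype I] [DecidableEq I] [Fintype J] [DecidableEq J] (e : J ↪ I)

open Classical in
/-- replace the bits in the range of `e` -/
noncomputable def patch (a : I → Bool) (w : J → Bool) : I → Bool :=
  fun i => if h : ∃ j, e j = i then w h.choose else a i

theorem patch_apply (a : I → Bool) (w : J → Bool) (j : J) : patch e a w (e j) = w j := by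
  unfold patch
  have h : ∃ j', e j' = e j := ⟨j, rfl⟩
  rw [dif_pos h]
  congr 1
  exact e.injective h.choose_spec

theorem patch_not (a : I → Bool) (w : J → Bool) {i : I} (h : ¬ ∃ j, e j = i) :
    patch e a w i = a i := by
  unfold patch
  rw [dif_neg h]

theorem Ex_patch (F : (I → Bool) → ℝ) :
    Ex unif F = Ex unif (fun a : I → Bool => Ex unif (fun w : J → Bool => F (patch e a w))) := by
  unfold Ex unif
  simp only [Finset.prod_const, Finset.card_univ]
  simp only [← Finset.mul_sum]
  have h1 : ∑ a : I → Bool, ∑ w : J → Bool, F (patch e a w) =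
      ∑ a : I → Bool, ∑ w : J → Bool, F a := by
    rw [← Fintype.sum_prod_type', ← Fintype.sum_prod_type' (f := fun (a : I → Bool) (_ : J → Bool) => F a)]
    have hinv : Function.Involutive (fun p : (I → Bool) × (J → Bool) =>
        (patch e p.1 p.2, fun j => p.1 (e j))) := by
      rintro ⟨a, w⟩
      simp only [Prod.mk.injEq]
      constructor
      · funext i
        by_cases h : ∃ j, e j = i
        · obtain ⟨j, rfl⟩ := h
          rw [patch_apply]
        · rw [patch_not e _ _ h, patch_not e _ _ h]
      · funext j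
        rw [patch_apply]
    exact Equiv.sum_comp hinv.toPerm (fun p : (I → Bool) × (J → Bool) => F p.1)
  rw [h1]
  simp only [Finset.sum_const, Finset.card_univ, Fintype.card_fun, Fintype.card_bool, nsmul_eq_mul]
  rw [← Finset.mul_sum]
  push_cast
  have h2 : ((1 : ℝ) / 2) ^ Fintype.card J * 2 ^ Fintype.card J = 1 := by
    rw [← mul_pow]; norm_num
  calc ((1 : ℝ) / 2) ^ Fintype.card I * ∑ i, F i =
      (1 / 2) ^ Fintype.card I * ((((1 : ℝ) / 2) ^ Fintype.card J * 2 ^ Fintype.card J) *
        ∑ i, F i) := by rw [h2, one_mul]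
    _ = _ := by ring

end patch

section curry

variable {X Y L : Type} [Fintype X] [DecidableEq X] [Fintype Y] [DecidableEq Y] [Fintype L]
  [DecidableEq L]

theorem Ex_curry (F : (X × Y × L → Bool) → ℝ) :
    Ex unif F = Ex (fun _ : Y → L → Bool => (1 / Fintype.card (Y → L → Bool) : ℝ))
      (fun ω : X → Y → L → Bool => F (fun p => ω p.1 p.2.1 p.2.2)) := by
  unfold Ex unif
  simp only [Finset.prod_const, Finset.card_univ]
  simp only [← Finset.mul_sum]
  congr 1
  · simp only [Fintype.card_prod, Fintype.card_fun, Fintype.card_bool]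
    push_cast
    rw [one_div, one_div, inv_pow, inv_pow, ← pow_mul, ← pow_mul]
    congr 2
    ring
  · let E : (X → Y → L → Bool) ≃ (X × Y × L → Bool) :=
      { toFun := fun ω p => ω p.1 p.2.1 p.2.2
        invFun := fun w x y l => w (x, y, l)
        left_inv := fun _ => rfl
        right_inv := fun _ => rfl }
    exact (Equiv.sum_comp E F).symm

open Classical in
/-- The estimate for a Boolean vector with disjoint blocks. -/
theorem vec_bound {I : Type} [Fintype I] [DecidableEq I] (e : X × Y × L ↪ I) {q : ℕ}
    (hY : 2 ^ Fintype.card L = Fintype.card Y + 1) (hL : 0 < Fintype.card L)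
    (G' : X → (I → Bool) → Prop)
    (hG : ∀ x a, G' x a → ∃ Q : Finset I, Q.card ≤ q ∧ ∀ a', (∀ i ∈ Q, a' i = a i) → G' x a')
    (r s : ℕ) (hrs : r * s ≤ Fintype.card X) :
    Ex unif (fun a : I → Bool => if ∀ x, (G' x a ↔ ∀ y, ∃ l, a (e (x, y, l)) = false) then
      (1 : ℝ) else 0) ≤
      1 / Real.sqrt (r + 1) + r * (1 / 2) ^ s + Fintype.card X * (q / (2 ^ Fintype.card L - 1)) := by
  rw [Ex_patch e]
  have hD : Fintype.card (L → Bool) = 2 ^ Fintype.card L := by simp
  have hev : Even (2 ^ Fintype.card L) := (Nat.even_pow.2 ⟨even_two, by omega⟩)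
  have h2 : 2 ≤ 2 ^ Fintype.card L := by
    calc 2 = 2 ^ 1 := rfl
      _ ≤ 2 ^ Fintype.card L := Nat.pow_le_pow_right (by norm_num) hL
  have hYR : (2 : ℝ) ^ Fintype.card L - 1 = Fintype.card Y := by
    have : ((2 ^ Fintype.card L : ℕ) : ℝ) = ((Fintype.card Y + 1 : ℕ) : ℝ) := by rw [hY]
    push_cast at this
    linarith
  rw [hYR]
  refine (Ex_mono unif_nonneg (G := fun _ => 1 / Real.sqrt (r + 1) + r * (1 / 2) ^ s +
    Fintype.card X * (q / Fintype.card Y)) fun a => ?_).trans (le_of_eq (Ex_const unif_sum _))
  rw [Ex_curry]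
  have h := core (X := X) (Y := Y) (D := L → Bool) (q := q) (fun _ => true)
    (G := fun x ω => G' x (patch e a (fun p => ω p.1 p.2.1 p.2.2)))
    (by rw [hD, hY]) (by rw [hD]; exact hev) (by omega) ?_ r s hrs
  · refine le_trans (le_of_eq ?_) h
    congr 1
    funext ω
    congr 1
    rw [eq_iff_iff]
    unfold Good
    apply forall_congr'
    intro x
    apply iff_congr Iff.rfl
    unfold Zero
    apply forall_congr'
    intro y
    simp only [patch_apply]
    constructor
    · rintro ⟨l, hl⟩ h
      rw [h] at hl
      simp at hl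
    · intro h
      by_contra hcon
      push Not at hcon
      apply h
      funext l
      have := hcon l
      simpa using this
  · intro x ω hx
    obtain ⟨Q, hQ, hQ'⟩ := hG x _ hx
    refine ⟨(univ.filter (fun p : X × Y × L => e p ∈ Q)).image (fun p => (p.1, p.2.1)), ?_, ?_⟩
    · refine Finset.card_image_le.trans (le_trans ?_ hQ)
      apply Finset.card_le_card_of_injOn e
      · intro p hp
        simpa using hp
      · exact e.injective.injOn
    · intro ω' hω'
      apply hQ'
      intro i hi
      by_cases h : ∃ j, e j = i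
      · obtain ⟨⟨x', y', l'⟩, rfl⟩ := h
        rw [patch_apply, patch_apply]
        have := hω' (x', y') (by
          rw [Finset.mem_image]
          exact ⟨(x', y', l'), by simpa using hi, rfl⟩)
        simp only at this
        rw [this]
      · rw [patch_not e _ _ h, patch_not e _ _ h]

end curry

end Pool.Agent.W2helper57.NEX
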