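import Pool.Agent.W2helper57.NEX.Lang
import Pool.Agent.W2helper57.NEX.Embed
import Pool.Agent.H620R2.Gauge.Event
import Pool.Agent.H620R2.Gauge.C
import Pool.Agent.H620R2.GaugeX.X1
import Pool.Agent.H620R2.GaugeX.X9

/-!
# The event that some nondeterministic machine with advice is right for all inputs of length `n`
-/

namespace Pool.Agent.H620R2.Gauge

open Pool.Agent.NPC Finset H568R2 Pool.Agent.H676 Pool.Agent.W2helper57.NEX

/-- The parameters of a nondeterministic exponential time algorithm with advice: the algorithm for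
the certificates, the polynomial for their length, the number which describes the length of the
advice. -/
structure NPar : Type where
  M : Alg
  p : Polynomial ℕ
  k : ℕ

instance : Countable NPar := by
  have h2 := CC.poly_countable
  let F : NPar → Alg × Polynomial ℕ × ℕ := fun θ => (θ.M, θ.p, θ.k)
  have hF : Function.Injective F := by
    rintro ⟨M, p, k⟩ ⟨N, q, l⟩ h
    simp only [F, Prod.mk.injEq] at h
    obtain ⟨rfl, rfl, rfl⟩ := h
    rfl
  exact hF.countable

/-- the bound for the length of the advice -/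
noncomputable def NPar.adv (θ : NPar) (n : ℕ) : ℝ := n / 2 - n / (θ.k + 1) + θ.k

theorem NPar.adv_le (θ : NPar) (n : ℕ) : θ.adv n ≤ n + θ.k := by
  unfold NPar.adv
  have h1 : (0 : ℝ) ≤ n / (θ.k + 1) := by positivity
  have h2 : (0 : ℝ) ≤ n := by positivity
  linarith

/-- the oracles for which the parameters are good -/
def EasyNE (θ : NPar) : Set Oracle :=
  {A | ∃ (V : List Bool → List Bool) (h : ℕ → List Bool),
    (∀ x, θ.M.out A x = some (V x)) ∧ (∀ n : ℕ, ((h n).length : ℝ) ≤ θ.adv n) ∧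
    ∀ x, x ∉ tribes A ↔ ∃ w : List Bool,
      w.length = 2 ^ θ.p.eval (pairBits x (h x.length)).length ∧
      V (pairBits w (pairBits x (h x.length))) = [true]}

theorem mem_easyNE {A : Oracle} {c C : ℝ} (hc : c < 1 / 2)
    (h : WithAdviceLen (IsNEXP A) (fun n => c * n + C) (tribes A)ᶜ) : ∃ θ, A ∈ EasyNE θ := by
  obtain ⟨L', h, ⟨V, p, ⟨M, hM⟩, hL'⟩, hh, hx⟩ := h
  obtain ⟨k, hk⟩ := exists_nat_gt (max C (1 / (1 / 2 - c)))
  have hk1 : C < k := (le_max_left _ _).trans_lt hk
  have hk2 : 1 / (1 / 2 - c) < k := (le_max_right _ _).trans_lt hk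
  refine ⟨⟨M, p, k⟩, V, h, hM, fun n => (hh n).trans ?_, fun x => ?_⟩
  · show c * n + C ≤ n / 2 - n / (k + 1) + k
    have h3 : 1 / ((k : ℝ) + 1) ≤ 1 / 2 - c := by
      have h4 : 0 < 1 / 2 - c := by linarith
      rw [div_le_iff₀ (by positivity)]
      rw [div_lt_iff₀ h4] at hk2
      nlinarith
    have h5 : (n : ℝ) / (k + 1) ≤ n * (1 / 2 - c) := by
      rw [div_eq_mul_one_div]
      exact mul_le_mul_of_nonneg_left h3 (by positivity)
    nlinarith
  · exact (hx x).trans (hL' _)

/-- the machine accepts -/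
def GN (θ : NPar) (h : List Bool) (N : ℕ) {n : ℕ} (x : Fin n → Bool) (a : Fin N → Bool) : Prop :=
  ∃ w : List Bool, w.length = 2 ^ θ.p.eval (2 * n + 1 + h.length) ∧
    θ.M.out (orc N a) (pairBits w (pairBits (List.ofFn x) h)) = some [true]

/-- the event -/
def EvNE (θ : NPar) (n N : ℕ) (a : Fin N → Bool) : Prop :=
  ∃ h : List Bool, (h.length : ℝ) ≤ θ.adv n ∧
    ∀ x : Fin n → Bool, (GN θ h N x a ↔ List.ofFn x ∉ tribes (orc N a))

/-! ### From oracles to their first bits -/

theorem tribes_local (n : ℕ) {A A' : Oracle} (h : ∀ z : List Bool, z.length ≤ n + 2 * 2 ^ n →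
    A z = A' z) (x : List Bool) (hx : x.length = n) : x ∈ tribes A ↔ x ∈ tribes A' := by
  unfold tribes
  simp only [Set.mem_ofPred_eq]
  apply exists_congr
  intro y
  apply and_congr_right
  intro hy
  apply and_congr_right
  intro _
  apply forall_congr'
  intro i
  apply forall_congr'
  intro hi
  rw [h]
  rw [List.length_append, List.length_append, List.length_replicate, hy, hx]
  rw [hx] at hi
  omega

theorem exists_bounds (P p : Polynomial ℕ) (k : ℕ) : ∃ R : Polynomial ℕ, ∀ n m : ℕ,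
    m ≤ 3 * n + 1 + k → P.eval (2 * 2 ^ p.eval m + 1 + m) ≤ 2 ^ R.eval n := by
  obtain ⟨r, hr⟩ := exists_exp_bound P p
  refine ⟨r.comp (Polynomial.C 3 * Polynomial.X + Polynomial.C (1 + k)), fun n m hm => ?_⟩
  refine (hr m).trans (Nat.pow_le_pow_right (by norm_num) ?_)
  rw [Polynomial.eval_comp]
  apply eval_mono
  simp only [Polynomial.eval_add, Polynomial.eval_mul, Polynomial.eval_C, Polynomial.eval_X]
  omega

theorem evNE_of_easy (θ : NPar) : ∃ Q : Polynomial ℕ, ∀ A ∈ EasyNE θ, ∀ n N : ℕ,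
    2 ^ (2 ^ Q.eval n) ≤ N → EvNE θ n N (pre N A) := by
  obtain ⟨qb, hqb⟩ := Alg.out_local θ.M
  obtain ⟨R, hR⟩ := exists_bounds qb θ.p θ.k
  refine ⟨R + Polynomial.X + Polynomial.C 3, ?_⟩
  rintro A ⟨V, h, hM, hh, hx⟩ n N hN
  have hQ : (R + Polynomial.X + Polynomial.C 3).eval n = R.eval n + n + 3 := by simp
  rw [hQ] at hN
  have e1 : 2 ^ (R.eval n + n + 3) = 8 * (2 ^ R.eval n * 2 ^ n) := by rw [pow_add, pow_add]; ring
  have e2 : 1 ≤ 2 ^ R.eval n := Nat.one_le_two_pow
  have e3 : 1 ≤ 2 ^ n := Nat.one_le_two_pow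
  have e4 : n < 2 ^ n := Nat.lt_two_pow_self
  have e5 : 2 ^ R.eval n ≤ 2 ^ R.eval n * 2 ^ n := Nat.le_mul_of_pos_right _ e3
  have e6 : 2 ^ n ≤ 2 ^ R.eval n * 2 ^ n := Nat.le_mul_of_pos_left _ e2
  have hpre : ∀ z : List Bool, z.length + 1 ≤ 2 ^ (R.eval n + n + 3) →
      orc N (pre N A) z = A z := by
    intro z hz
    apply orc_pre
    have h1 := idx_lt z
    have h2 : 2 ^ (z.length + 1) ≤ 2 ^ (2 ^ (R.eval n + n + 3)) :=
      Nat.pow_le_pow_right (by norm_num) hz
    omega
  have hadv : (h n).length ≤ n + θ.k := by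
    have h1 := (hh n).trans (θ.adv_le n)
    exact_mod_cast h1
  refine ⟨h n, hh n, fun x => ?_⟩
  have hlx : (List.ofFn x).length = n := List.length_ofFn
  have h1 := hx (List.ofFn x)
  rw [hlx] at h1
  have h2 : List.ofFn x ∈ tribes (orc N (pre N A)) ↔ List.ofFn x ∈ tribes A := by
    apply tribes_local n _ _ hlx
    intro z hz
    apply hpre
    omega
  rw [h2, h1]
  unfold GN
  apply exists_congr
  intro w
  have hlen : (pairBits (List.ofFn x) (h n)).length = 2 * n + 1 + (h n).length := by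
    rw [length_pairBits, hlx]
  rw [hlen]
  apply and_congr_right
  intro hw
  obtain ⟨U, _, hU2, hU3⟩ := hqb A (pairBits w (pairBits (List.ofFn x) (h n)))
  have h3 : θ.M.out (orc N (pre N A)) (pairBits w (pairBits (List.ofFn x) (h n))) =
      θ.M.out A (pairBits w (pairBits (List.ofFn x) (h n))) := by
    apply hU3
    intro z hz
    apply hpre
    have h4 := hU2 z hz
    rw [length_pairBits, hlen, hw] at h4
    have h5 := hR n (2 * n + 1 + (h n).length) (by omega)
    omega
  rw [h3, hM, Option.some.injEq]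

/-! ### The probability -/

/-- the positions of the blocks -/
noncomputable def posE (n N : ℕ) (hN : 2 ^ (n + 2 * 2 ^ n) ≤ N + 1) :
    (Fin n → Bool) × {y : Fin (2 ^ n) → Bool // y ≠ fun _ => true} × Fin (2 ^ n) ↪ Fin N where
  toFun p := ⟨idx (List.ofFn p.1 ++ (List.ofFn p.2.1.1 ++ List.replicate p.2.2.1 true)), by
    have h1 := idx_lt (List.ofFn p.1 ++ (List.ofFn p.2.1.1 ++ List.replicate p.2.2.1 true))
    have h2 : (List.ofFn p.1 ++ (List.ofFn p.2.1.1 ++ List.replicate p.2.2.1 true)).length + 1 ≤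
        n + 2 * 2 ^ n := by
      rw [List.length_append, List.length_append, List.length_ofFn, List.length_ofFn,
        List.length_replicate]
      have := p.2.2.2
      omega
    have h3 := Nat.pow_le_pow_right (n := 2) (by norm_num) h2
    omega⟩
  inj' := by
    rintro ⟨x, ⟨y, hy⟩, i⟩ ⟨x', ⟨y', hy'⟩, i'⟩ h
    simp only [Fin.mk.injEq] at h
    have h1 : List.ofFn x ++ (List.ofFn y ++ List.replicate i.1 true) =
        List.ofFn x' ++ (List.ofFn y' ++ List.replicate i'.1 true) := by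
      rw [← str_idx (List.ofFn x ++ (List.ofFn y ++ List.replicate i.1 true)), h, str_idx]
    obtain ⟨h2, h3⟩ := List.append_inj h1 (by simp)
    obtain ⟨h4, h5⟩ := List.append_inj h3 (by simp)
    have h6 := congrArg List.length h5
    rw [List.length_replicate, List.length_replicate] at h6
    have h7 := List.ofFn_injective h2
    have h8 := List.ofFn_injective h4
    subst h7 h8
    congr 2
    exact Fin.ext h6

theorem tri_iff {n N : ℕ} (hN : 2 ^ (n + 2 * 2 ^ n) ≤ N + 1) (a : Fin N → Bool)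
    (x : Fin n → Bool) : List.ofFn x ∉ tribes (orc N a) ↔
      ∀ y, ∃ l, a (posE n N hN (x, y, l)) = false := by
  have hlx : (List.ofFn x).length = n := List.length_ofFn
  have hor : ∀ (y : {y : Fin (2 ^ n) → Bool // y ≠ fun _ => true}) (l : Fin (2 ^ n)),
      orc N a (List.ofFn x ++ (List.ofFn y.1 ++ List.replicate l.1 true)) =
        a (posE n N hN (x, y, l)) := by
    intro y l
    unfold orc
    have h := (posE n N hN (x, y, l)).2
    rw [dif_pos (show idx (List.ofFn x ++ (List.ofFn y.1 ++ List.replicate l.1 true)) < N from h)]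
    rfl
  constructor
  · intro h y
    by_contra hcon
    push Not at hcon
    apply h
    refine ⟨List.ofFn y.1, by rw [List.length_ofFn, hlx], ?_, ?_⟩
    · intro h1
      apply y.2
      apply List.ofFn_injective
      rw [h1]
      simp
    · intro i hi
      rw [hlx] at hi
      have h2 := hcon ⟨i, hi⟩
      rw [← hor] at h2
      simpa using h2
  · rintro h ⟨y, h1, h2, h3⟩
    rw [hlx] at h1 h3
    obtain ⟨y', rfl⟩ : ∃ y' : Fin (2 ^ n) → Bool, List.ofFn y' = y :=
      ⟨fun i => y[i.1]'(by rw [h1]; exact i.2), by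
        apply List.ext_getElem
        · simp [h1]
        · intro i _ _; simp⟩
    obtain ⟨l, hl⟩ := h ⟨y', by
      rintro rfl
      apply h2
      simp⟩
    rw [← hor] at hl
    have h4 := h3 l.1 l.2
    simp only at hl
    rw [hl] at h4
    simp at h4

theorem GN_cert (θ : NPar) (h : List Bool) (N : ℕ) {n : ℕ} (x : Fin n → Bool) (a : Fin N → Bool)
    (hG : GN θ h N x a) : ∃ Q : Finset (Fin N),
      Q.card ≤ θ.M.p.eval (2 * 2 ^ θ.p.eval (2 * n + 1 + h.length) + 1 + (2 * n + 1 + h.length)) ∧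
      ∀ a', (∀ i ∈ Q, a' i = a i) → GN θ h N x a' := by
  obtain ⟨w, hw, hacc⟩ := hG
  set z := pairBits w (pairBits (List.ofFn x) h) with hz
  have hlen : z.length = 2 * 2 ^ θ.p.eval (2 * n + 1 + h.length) + 1 + (2 * n + 1 + h.length) := by
    rw [hz, length_pairBits, length_pairBits, List.length_ofFn, hw]
  obtain ⟨U, hU1, hU2⟩ := run_local θ.M (orc N a) z (θ.M.p.eval z.length) []
  classical
  refine ⟨univ.filter (fun i : Fin N => str i ∈ U), ?_, fun a' ha' => ⟨w, hw, ?_⟩⟩
  · rw [← hlen]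
    refine le_trans ?_ hU1
    apply Finset.card_le_card_of_injOn (fun i : Fin N => str i)
    · intro i hi
      simpa using hi
    · intro i _ j _ hij
      exact Fin.ext (str_injective hij)
  · rw [← hacc]
    apply hU2
    intro u hu
    unfold orc
    by_cases hN : idx u < N
    · rw [dif_pos hN, dif_pos hN]
      apply ha'
      simp only [Finset.mem_filter, Finset.mem_univ, true_and]
      rw [str_idx]
      exact hu
    · rw [dif_neg hN, dif_neg hN]

open Classical in
theorem evNE_bound (θ : NPar) : ∃ R : Polynomial ℕ, ∀ n N r s : ℕ,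
    2 ^ (n + 2 * 2 ^ n) ≤ N + 1 → r * s ≤ 2 ^ n →
    Ex unif (fun a : Fin N → Bool => if EvNE θ n N a then (1 : ℝ) else 0) ≤
      2 ^ (θ.adv n + 1) * (1 / Real.sqrt (r + 1) + r * (1 / 2) ^ s +
        2 ^ n * (2 ^ R.eval n / (2 ^ (2 ^ n) - 1))) := by
  obtain ⟨R, hR⟩ := exists_bounds θ.M.p θ.p θ.k
  refine ⟨R, fun n N r s hN hrs => ?_⟩
  by_cases hadv : θ.adv n < 0
  · -- no advice
    have h1 : ∀ a : Fin N → Bool, ¬ EvNE θ n N a := by
      rintro a ⟨h, hh, _⟩
      have : (0 : ℝ) ≤ h.length := by positivity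
      linarith
    have h2 : (fun a : Fin N → Bool => if EvNE θ n N a then (1 : ℝ) else 0) = fun _ => 0 := by
      funext a
      rw [if_neg (h1 a)]
    rw [h2, Ex_const unif_sum]
    have h3 : (0 : ℝ) ≤ 2 ^ (2 ^ n) - 1 := by
      have : (1 : ℝ) ≤ 2 ^ (2 ^ n) := one_le_pow₀ (by norm_num)
      linarith
    positivity
  push Not at hadv
  set b : ℕ := ⌊θ.adv n⌋₊ with hb
  obtain ⟨U, hU, hU'⟩ := exists_short b
  set U' := U.filter (fun h : List Bool => (h.length : ℝ) ≤ θ.adv n) with hUd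
  set β : ℝ := 1 / Real.sqrt (r + 1) + r * (1 / 2) ^ s +
        2 ^ n * (2 ^ R.eval n / (2 ^ (2 ^ n) - 1)) with hβ
  have hpos : (0 : ℝ) < 2 ^ (2 ^ n) - 1 := by
    have : (2 : ℝ) ^ 1 ≤ 2 ^ (2 ^ n) := pow_le_pow_right₀ (by norm_num) Nat.one_le_two_pow
    linarith
  have hβ0 : 0 ≤ β := by positivity
  have hone : ∀ h ∈ U', Ex unif (fun a : Fin N → Bool =>
      if ∀ x : Fin n → Bool, (GN θ h N x a ↔ List.ofFn x ∉ tribes (orc N a)) then
        (1 : ℝ) else 0) ≤ β := by
    intro h hh
    rw [hUd, Finset.mem_filter] at hh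
    have hhl : h.length ≤ n + θ.k := by exact_mod_cast hh.2.trans (θ.adv_le n)
    have h1 := vec_bound (posE n N hN) (q := θ.M.p.eval (2 * 2 ^ θ.p.eval (2 * n + 1 + h.length) +
      1 + (2 * n + 1 + h.length))) (by
        rw [Fintype.card_fin, Fintype.card_subtype_compl, Fintype.card_subtype_eq]
        simp only [Fintype.card_fun, Fintype.card_bool, Fintype.card_fin]
        have : 1 ≤ 2 ^ 2 ^ n := Nat.one_le_two_pow
        omega) (by rw [Fintype.card_fin]; positivity) (fun x a => GN θ h N x a)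
      (fun x a hG => GN_cert θ h N x a hG) r s (by simpa using hrs)
    simp only [← tri_iff hN] at h1
    refine le_trans ?_ (h1.trans ?_)
    · apply Ex_mono unif_nonneg
      intro a
      split_ifs <;> norm_num
    · rw [hβ, Fintype.card_fin]
      have h2 : (Fintype.card (Fin n → Bool) : ℝ) = 2 ^ n := by simp
      rw [h2]
      have h3 := hR n (2 * n + 1 + h.length) (by omega)
      have h4 : ((θ.M.p.eval (2 * 2 ^ θ.p.eval (2 * n + 1 + h.length) + 1 +
          (2 * n + 1 + h.length)) : ℕ) : ℝ) ≤ 2 ^ R.eval n := by exact_mod_cast h3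
      have h5 : ((θ.M.p.eval (2 * 2 ^ θ.p.eval (2 * n + 1 + h.length) + 1 +
          (2 * n + 1 + h.length)) : ℕ) : ℝ) / (2 ^ (2 ^ n) - 1) ≤
          2 ^ R.eval n / (2 ^ (2 ^ n) - 1) := div_le_div_of_nonneg_right h4 hpos.le
      have h6 := mul_le_mul_of_nonneg_left h5 (show (0 : ℝ) ≤ 2 ^ n by positivity)
      linarith
  have hpt : ∀ a : Fin N → Bool, (if EvNE θ n N a then (1 : ℝ) else 0) ≤ ∑ h ∈ U',
      if ∀ x : Fin n → Bool, (GN θ h N x a ↔ List.ofFn x ∉ tribes (orc N a)) then
        (1 : ℝ) else 0 := by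
    intro a
    by_cases hE : EvNE θ n N a
    · rw [if_pos hE]
      obtain ⟨h, hh, hx⟩ := hE
      have hmem : h ∈ U' := by
        rw [hUd, Finset.mem_filter]
        exact ⟨hU' h (Nat.le_floor hh), hh⟩
      refine le_trans ?_ (Finset.single_le_sum (f := fun h : List Bool =>
        if ∀ x : Fin n → Bool, (GN θ h N x a ↔ List.ofFn x ∉ tribes (orc N a)) then
        (1 : ℝ) else 0) (fun _ _ => by positivity) hmem)
      rw [if_pos hx]
    · rw [if_neg hE]
      exact Finset.sum_nonneg fun _ _ => by positivity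
  refine (Ex_mono unif_nonneg hpt).trans ?_
  rw [Ex_sum]
  refine (Finset.sum_le_sum hone).trans ?_
  rw [Finset.sum_const, nsmul_eq_mul]
  apply mul_le_mul_of_nonneg_right _ hβ0
  have h1 : U'.card ≤ 2 ^ (b + 1) := (Finset.card_filter_le _ _).trans hU
  have h2 : (U'.card : ℝ) ≤ 2 ^ (b + 1) := by exact_mod_cast h1
  refine h2.trans ?_
  rw [← Real.rpow_natCast]
  apply Real.rpow_le_rpow_of_exponent_le (by norm_num)
  push_cast
  have := Nat.floor_le hadv
  linarith

end Pool.Agent.H620R2.Gauge
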