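import Pool.Agent.W2helper57.NEX.Defs
import Pool.Agent.W2helper57.PPH.TakeDrop
import Pool.Agent.H620R2.GaugeR.Seq
import Pool.Agent.H671R2.PolyAuto

/-!
# The test language
-/

namespace Pool.Agent.H620R2.Gauge

open Pool.Agent.NPC Pool.Agent.H622R2 Pool.Agent.W2helper57.PPH

/-- The test language: `x` is in it if for some `y ≠ 1 … 1` of length `2 ^ |x|` all strings
`x y 1 ^ i` with `i < 2 ^ |x|` are in the oracle. -/
def tribes (A : Oracle) : Set (List Bool) :=
  {x | ∃ y : List Bool, y.length = 2 ^ x.length ∧ y ≠ List.replicate y.length true ∧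
    ∀ i < 2 ^ x.length, A (x ++ (y ++ List.replicate i true)) = true}

namespace Tri

/-- the questions -/
def qs (z : List Bool) : List (List Bool) :=
  (List.range (unpair z).1.length).map (fun i =>
    (unpair z).2 ++ ((unpair z).1 ++ ((unpair z).1.map (fun _ => true)).take i))

/-- the verifier -/
def ver (A : Oracle) (z : List Bool) : List Bool :=
  if (unpair z).1 = (unpair z).1.map (fun _ => true) then [false] else
    if (qs z).map A = ((qs z).map (fun _ => true)) then [true] else [false]

section

attribute [local irreducible] unpair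

theorem poly_qs : Poly qs := by
  have h0 := poly_unpair
  have h1 : Poly (fun z : List Bool => (unpair z).1) := by fun_prop
  have h2 : Poly (fun z : List Bool => (unpair z).2) := by fun_prop
  have h3 : Poly (fun z : List Bool => (unpair z).1.map (fun _ => true)) :=
    NPC.Poly.map (F := fun _ _ => true) h1 (NPC.Poly.const true)
  unfold qs
  refine NPC.Poly.map (F := fun z i =>
    (unpair z).2 ++ ((unpair z).1 ++ ((unpair z).1.map (fun _ => true)).take i))
    (Poly.range_length h1) ?_
  exact Poly.append (h2.comp (Poly.fst Poly.id)) (Poly.append (h1.comp (Poly.fst Poly.id))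
    (poly_take (h3.comp (Poly.fst Poly.id)) (Poly.snd Poly.id)))

theorem isFP_ver (A : Oracle) : IsFP A (ver A) := by
  have h0 := poly_unpair
  have h1 : Poly (fun q : List Bool × List Bool => (unpair q.1).1) := by fun_prop
  have h3 : Poly (fun q : List Bool × List Bool => (unpair q.1).1.map (fun _ => true)) :=
    NPC.Poly.map (F := fun _ _ => true) h1 (NPC.Poly.const true)
  have h4 : Poly (fun q : List Bool × List Bool => (qs q.1).map (fun _ => true)) :=
    NPC.Poly.map (F := fun _ _ => true) (poly_qs.comp (Poly.fst Poly.id)) (NPC.Poly.const true)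
  have hH : Poly (fun q : List Bool × List Bool =>
      if (unpair q.1).1 = (unpair q.1).1.map (fun _ => true) then [false] else
        if q.2 = (qs q.1).map (fun _ => true) then [true] else [false]) :=
    Poly.ite (Poly.decide_eq h1 h3) (NPC.Poly.const [false])
      (Poly.ite (Poly.decide_eq (Poly.snd Poly.id) h4) (NPC.Poly.const [true])
        (NPC.Poly.const [false]))
  exact IsFP.tt (A := A) poly_qs hH

end

theorem ver_pair (A : Oracle) (w x : List Bool) : ver A (pairBits w x) = [true] ↔
    w ≠ List.replicate w.length true ∧
      ∀ i < w.length, A (x ++ (w ++ List.replicate i true)) = true := by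
  have e : qs (pairBits w x) = (List.range w.length).map (fun i =>
      x ++ (w ++ List.replicate i true)) := by
    unfold qs
    rw [unpair_pairBits]
    apply List.map_congr_left
    intro i hi
    rw [List.mem_range] at hi
    simp only [List.map_const', List.take_replicate, Nat.min_eq_left hi.le]
  have h2 : (qs (pairBits w x)).map A = (qs (pairBits w x)).map (fun _ => true) ↔
      ∀ i < w.length, A (x ++ (w ++ List.replicate i true)) = true := by
    rw [List.map_inj_left, e]
    simp only [List.mem_map, List.mem_range, forall_exists_index, and_imp, forall_apply_eq_imp_iff₂]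
  have hw : w.map (fun _ => true) = List.replicate w.length true := List.map_const'
  unfold ver
  rw [unpair_pairBits]
  simp only [hw]
  by_cases h1 : w = List.replicate w.length true
  · rw [if_pos h1]
    simp [← h1]
  · rw [if_neg h1]
    by_cases h3 : (qs (pairBits w x)).map A = (qs (pairBits w x)).map (fun _ => true)
    · rw [if_pos h3]
      exact ⟨fun _ => ⟨h1, h2.1 h3⟩, fun _ => rfl⟩
    · rw [if_neg h3]
      simp only [List.cons.injEq, Bool.false_eq_true, and_true, false_iff, not_and]
      exact fun _ h => h3 (h2.2 h)

end Tri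

theorem isNEXP_tribes (A : Oracle) : IsNEXP A (tribes A) := by
  refine ⟨Tri.ver A, Polynomial.X, Tri.isFP_ver A, fun x => ?_⟩
  rw [Polynomial.eval_X]
  unfold tribes
  rw [Set.mem_ofPred_eq]
  apply exists_congr
  intro w
  rw [Tri.ver_pair]
  constructor
  · rintro ⟨h1, h2, h3⟩
    exact ⟨h1, h2, by rw [h1]; exact h3⟩
  · rintro ⟨h1, h2, h3⟩
    exact ⟨h1, h2, by rw [← h1]; exact h3⟩

end Pool.Agent.H620R2.Gauge
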