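import Pool.Agent.W2helper57.NEX.Code
import Pool.Agent.W2helper57.PPH.Lang
import Pool.Agent.H620R2.GaugeR.R2

/-!
# The census makes complements easy
-/

namespace Pool.Agent.H620R2.Gauge

open Pool.Agent.NPC Pool.Agent.H622R2 Finset Pool.Agent.W2helper57.PPH

namespace Cen

/-- the language of the machine -/
def lng (M : Alg) (p : Polynomial ℕ) (A : Oracle) : Set (List Bool) :=
  {x | ∃ w : List Bool, w.length = 2 ^ p.eval x.length ∧ M.out A (pairBits w x) = some [true]}

open Classical in
/-- the number of the strings of length `n` in the language -/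
noncomputable def cens (M : Alg) (p : Polynomial ℕ) (A : Oracle) (n : ℕ) : ℕ :=
  ((Finset.range (2 ^ n)).filter (fun i => bitsOf n i ∈ lng M p A)).card

theorem cens_le (M : Alg) (p : Polynomial ℕ) (A : Oracle) (n : ℕ) : cens M p A n ≤ 2 ^ n := by
  classical
  unfold cens
  refine (Finset.card_filter_le _ _).trans ?_
  simp

theorem cens_congr {M : Alg} {p : Polynomial ℕ} {A A' : Oracle} {n : ℕ}
    (h : ∀ x : List Bool, x.length = n → (x ∈ lng M p A ↔ x ∈ lng M p A')) :
    cens M p A n = cens M p A' n := by
  classical
  unfold cens
  congr 1
  apply Finset.filter_congr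
  intro i _
  exact h _ (length_bitsOf n i)

/-! ### The verifier -/

/-- the list of the certificates -/
def dec (w : List Bool) : List (List Bool) := (unbits (List (List Bool)) (unpair w).1).getD []

/-- `bitsOf` with the length given by a string -/
def bo (x : List Bool) (i : ℕ) : List Bool := (i.bits ++ PTask.zeros x).take x.length

theorem bo_eq (x : List Bool) {i : ℕ} (hi : i < 2 ^ x.length) : bo x i = bitsOf x.length i := by
  obtain ⟨n, hn⟩ : ∃ n, x.length = n := ⟨_, rfl⟩
  unfold bo
  rw [PTask.zeros_eq, hn]
  rw [hn] at hi
  clear hn x
  induction n generalizing i with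
  | zero => simp [bitsOf]
  | succ n ih =>
    rw [bitsOf]
    rcases Nat.eq_zero_or_pos i with h0 | h0
    · subst h0
      have := ih (i := 0) (by positivity)
      simp only [Nat.zero_bits, List.nil_append, List.take_replicate, min_self, Nat.zero_mod,
        Nat.zero_div] at this ⊢
      rw [List.replicate_succ, ← this]
      rfl
    · have h1 : i = Nat.bit (i % 2 == 1) (i / 2) := by
        rw [Nat.bit_val]
        rcases Nat.mod_two_eq_zero_or_one i with h | h
        · rw [h]; simp; omega
        · rw [h]; simp; omega
      have h2 : i.bits = (i % 2 == 1) :: (i / 2).bits := by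
        conv_lhs => rw [h1]
        rw [Nat.bits_append_bit]
        intro h3
        rcases Nat.mod_two_eq_zero_or_one i with h | h
        · omega
        · rw [h]; rfl
      rw [h2, List.cons_append, List.take_succ_cons]
      congr 1
      have h3 := ih (i := i / 2) (by rw [pow_succ] at hi; omega)
      rw [← h3, List.replicate_succ']
      rw [← List.append_assoc, List.take_append_of_le_length]
      simp

section

variable (R : ℕ → Polynomial ℕ) (e : ℕ) (p : Polynomial ℕ)

/-- `1 … 1`, as long as the string -/
def ones (w : List Bool) : List Bool := w.map (fun _ => true)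

theorem ones_eq (w : List Bool) : ones w = List.replicate w.length true := List.map_const'

theorem poly_ones : Poly ones := NPC.Poly.map (F := fun _ _ => true) Poly.id (NPC.Poly.const true)

/-- the code strings -/
def cs (z : List Bool) : List (List Bool) :=
  (List.range ((unpair z).2.length + 1)).map (fun i =>
    List.replicate e true ++ false ::
      ((ones (unpair z).1).take (2 ^ (R e).eval (unpair z).2.length) ++ false ::
        (ones (unpair z).2 ++ false :: (ones (unpair z).2).take i)))

/-- the final test -/
def fin (q : List Bool × List Bool × List Bool) : List Bool :=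
  if (dec (unpair q.1).1).length = 2 ^ (unpair q.1).2.length ∧
      ((dec (unpair q.1).1).zip q.2.1).filter (fun u => decide (u.1 ≠ []) &&
        !(decide (u.1.length = 2 ^ p.eval (unpair q.1).2.length) && u.2)) = [] ∧
      ((dec (unpair q.1).1).filter (fun u => decide (u ≠ []))).length = valB q.2.2 ∧
      (dec (unpair q.1).1).getD (valB (unpair q.1).2) [] = [] then [true] else [false]

section

attribute [local irreducible] unpair valB

theorem poly_dec : Poly dec :=
  Poly.optGetD (poly_unbits.comp (Poly.fst poly_unpair)) (NPC.Poly.const _)

theorem poly_cs : Poly (cs R e) := by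
  have h0 := poly_unpair
  have h1 : Poly (fun z : List Bool => (unpair z).1) := by fun_prop
  have h2 : Poly (fun z : List Bool => (unpair z).2) := by fun_prop
  have h3 : UPoly (fun z : List Bool => (unpair z).2.length + 1) :=
    (UPoly.length h2).add (UPoly.const 1)
  have h4 : Poly (fun z : List Bool => 2 ^ (R e).eval (unpair z).2.length) :=
    Thr.poly_two_pow (UPoly.eval (UPoly.length h2) (R e))
  have f1 : Poly (fun q : List Bool × ℕ => q.1) := Poly.fst Poly.id
  have f2 : Poly (fun q : List Bool × ℕ => q.2) := Poly.snd Poly.id
  refine NPC.Poly.map (F := fun z i => List.replicate e true ++ false ::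
      ((ones (unpair z).1).take (2 ^ (R e).eval (unpair z).2.length) ++ false ::
        (ones (unpair z).2 ++ false :: (ones (unpair z).2).take i))) h3.range ?_
  exact Poly.append (NPC.Poly.const _) (Poly.cons (NPC.Poly.const false)
    (Poly.append (poly_take ((poly_ones.comp h1).comp f1) (h4.comp f1))
      (Poly.cons (NPC.Poly.const false) (Poly.append ((poly_ones.comp h2).comp f1)
        (Poly.cons (NPC.Poly.const false) (poly_take ((poly_ones.comp h2).comp f1) f2))))))

theorem poly_fin : Poly (fin p) := by
  have h0 := poly_unpair
  have hd : Poly (fun q : List Bool × List Bool × List Bool => dec (unpair q.1).1) :=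
    poly_dec.comp (by fun_prop)
  have hx : Poly (fun q : List Bool × List Bool × List Bool => (unpair q.1).2) := by fun_prop
  have h1 : Poly (fun q : List Bool × List Bool × List Bool => 2 ^ (unpair q.1).2.length) :=
    Thr.poly_two_pow (UPoly.length hx)
  have h2 : Poly (fun q : List Bool × List Bool × List Bool =>
      2 ^ p.eval (unpair q.1).2.length) :=
    Thr.poly_two_pow (UPoly.eval (UPoly.length hx) p)
  have h3 : Poly (fun q : List Bool × List Bool × List Bool =>
      ((dec (unpair q.1).1).zip q.2.1).filter (fun u => decide (u.1 ≠ []) &&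
        !(decide (u.1.length = 2 ^ p.eval (unpair q.1).2.length) && u.2))) := by
    refine NPC.Poly.filter (p := fun (q : List Bool × List Bool × List Bool)
      (u : List Bool × Bool) => decide (u.1 ≠ []) &&
        !(decide (u.1.length = 2 ^ p.eval (unpair q.1).2.length) && u.2))
      (Poly.zip hd (Poly.fst (Poly.snd Poly.id))) ?_
    have g1 : Poly (fun c : (List Bool × List Bool × List Bool) × List Bool × Bool => c.2.1) :=
      Poly.fst (Poly.snd Poly.id)
    have g2 : Poly (fun c : (List Bool × List Bool × List Bool) × List Bool × Bool => c.2.2) :=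
      Poly.snd (Poly.snd Poly.id)
    have g3 := h2.comp (Poly.fst (Poly.id : Poly
      (fun c : (List Bool × List Bool × List Bool) × List Bool × Bool => c)))
    have g4 : Poly (fun c : (List Bool × List Bool × List Bool) × List Bool × Bool =>
        decide (c.2.1 = [])) := Poly.decide_eq g1 (NPC.Poly.const [])
    refine (Poly.and (Poly.not g4) (Poly.not (Poly.and (Poly.decide_eq (Poly.length g1) g3)
      g2))).congr fun c => ?_
    simp only [ne_eq, decide_not]
  have h4 : Poly (fun q : List Bool × List Bool × List Bool =>
      (dec (unpair q.1).1).filter (fun u => decide (u ≠ []))) := by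
    refine NPC.Poly.filter (p := fun (_ : List Bool × List Bool × List Bool)
      (u : List Bool) => decide (u ≠ [])) hd ?_
    refine (Poly.not (Poly.decide_eq (Poly.snd Poly.id) (NPC.Poly.const []))).congr fun c => ?_
    simp only [ne_eq, decide_not]
  have h5 : Poly (fun q : List Bool × List Bool × List Bool => valB q.2.2) :=
    Poly.valBits (Poly.snd (Poly.snd Poly.id))
  have h6 : Poly (fun q : List Bool × List Bool × List Bool =>
      (dec (unpair q.1).1).getD (valB (unpair q.1).2) []) :=
    Poly.getD hd (Poly.valBits hx) (NPC.Poly.const [])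
  unfold fin
  exact Poly.ite (Poly.decide_and (Poly.decide_eq (Poly.length hd) h1)
    (Poly.decide_and (Poly.decide_eq h3 (NPC.Poly.const []))
      (Poly.decide_and (Poly.decide_eq (Poly.length h4) h5) (Poly.decide_eq h6
        (NPC.Poly.const []))))) (NPC.Poly.const [true]) (NPC.Poly.const [false])

end

/-- the verifier -/
def ver (V : List Bool → List Bool) (A : Oracle) (z : List Bool) : List Bool :=
  fin p (z, (List.range z.length).map (fun i =>
    decide (V (pairBits ((dec (unpair z).1).getD i []) (bo (unpair z).2 i)) = [true])),
    (cs R e z).map A)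

section

attribute [local irreducible] unpair valB

theorem isFP_ver {V : List Bool → List Bool} {A : Oracle} (hV : IsFP A V) :
    IsFP A (ver R e p V A) := by
  have h0 := poly_unpair
  have hW : Poly (fun c : (ℕ × List Bool) × List Bool =>
      pairBits ((dec (unpair c.1.2).1).getD c.1.1 []) (bo (unpair c.1.2).2 c.1.1)) := by
    have g1 : Poly (fun c : (ℕ × List Bool) × List Bool => dec (unpair c.1.2).1) :=
      poly_dec.comp (by fun_prop)
    have g2 : Poly (fun c : (ℕ × List Bool) × List Bool => c.1.1) := by fun_prop
    have g3 : Poly (fun c : (ℕ × List Bool) × List Bool => (unpair c.1.2).2) := by fun_prop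
    have g4 : Poly (fun c : (ℕ × List Bool) × List Bool => bo (unpair c.1.2).2 c.1.1) :=
      poly_take (Poly.append (Poly.natBits g2) (PTask.poly_zeros.comp g3)) (Poly.length g3)
    exact poly_pairBits (Poly.getD g1 g2 (NPC.Poly.const [])) g4
  have h1 := IsFP.votes hV Polynomial.X (Q := fun _ => []) (NPC.Poly.const []) hW
    (H := fun q => q.2) (Poly.snd Poly.id)
  have h2 := IsFP.tt (A := A) (Q := cs R e) (H := fun q => q.2) (poly_cs R e) (Poly.snd Poly.id)
  have h3 := IsFP.seq (φ := fun q => q.1) h1 h2 (Poly.fst Poly.id) (poly_fin p)
  simp only [Polynomial.eval_X] at h3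
  exact h3

end

end

theorem filter_length (P : List Bool → Bool) (l : List (List Bool)) :
    (l.filter P).length = ((Finset.range l.length).filter (fun i => P (l.getD i []) = true)).card := by
  induction l using List.reverseRecOn with
  | nil => simp
  | append_singleton l a ih =>
    rw [List.filter_append, List.length_append, ih, List.length_append, List.length_singleton,
      Finset.range_add_one, Finset.filter_insert]
    have h1 : (Finset.range l.length).filter (fun i => P ((l ++ [a]).getD i []) = true) =
        (Finset.range l.length).filter (fun i => P (l.getD i []) = true) := by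
      apply Finset.filter_congr
      intro i hi
      rw [Finset.mem_range] at hi
      rw [List.getD_append _ _ _ _ hi]
    have h2 : (l ++ [a]).getD l.length [] = a := by
      rw [List.getD_append_right _ _ _ _ le_rfl]
      simp
    rw [h1, h2]
    by_cases ha : P a = true
    · rw [if_pos ha, Finset.card_insert_of_notMem (by simp)]
      simp [ha]
    · rw [if_neg ha]
      simp [ha]

theorem bitsOf_valB (x : List Bool) : bitsOf x.length (valB x) = x := by
  obtain ⟨j, hj, h⟩ := exists_bitsOf x
  conv_lhs => rw [← h]
  rw [length_bitsOf, valB_bitsOf, Nat.mod_eq_of_lt hj, h]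

theorem cs_pair (R : ℕ → Polynomial ℕ) (e : ℕ) (w x : List Bool)
    (hw : 2 ^ (R e).eval x.length ≤ w.length) :
    cs R e (pairBits w x) = (List.range (x.length + 1)).map (fun i => xcode R e x.length i) := by
  unfold cs
  rw [unpair_pairBits]
  apply List.map_congr_left
  intro i hi
  rw [List.mem_range] at hi
  simp only at hi
  simp only [ones_eq, List.take_replicate, xcode]
  rw [Nat.min_eq_left hw, Nat.min_eq_left (by omega)]

theorem codes_eq {R : ℕ → Polynomial ℕ} {e : ℕ} {A : Oracle} {n c : ℕ}
    (hA : ∀ i ≤ n, A (xcode R e n i) = (bitsOf (n + 1) c).getD i false) (hc : c ≤ 2 ^ n) :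
    valB (((List.range (n + 1)).map (fun i => xcode R e n i)).map A) = c := by
  have h1 : ((List.range (n + 1)).map (fun i => xcode R e n i)).map A = bitsOf (n + 1) c := by
    apply List.ext_getElem
    · simp [length_bitsOf]
    · intro i h2 h3
      simp only [List.length_map, List.length_range] at h2
      simp only [List.getElem_map, List.getElem_range]
      rw [hA i (by omega), List.getD_eq_getElem _ _ h3]
  rw [h1, valB_bitsOf, Nat.mod_eq_of_lt]
  have : 2 ^ (n + 1) = 2 * 2 ^ n := by rw [pow_succ]; ring
  have : 0 < 2 ^ n := by positivity
  omega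

theorem ite_iff (P : Prop) [Decidable P] : (if P then [true] else [false]) = [true] ↔ P := by
  by_cases h : P <;> simp [h]

theorem ver_iff {R : ℕ → Polynomial ℕ} {e : ℕ} {p : Polynomial ℕ} {V : List Bool → List Bool}
    {A : Oracle} {w x : List Bool} {c : ℕ}
    (hA : ∀ i ≤ x.length, A (xcode R e x.length i) = (bitsOf (x.length + 1) c).getD i false)
    (hc : c ≤ 2 ^ x.length) (hw : 2 ^ (R e).eval x.length ≤ w.length)
    (hw2 : 2 ^ x.length ≤ w.length) :
    ver R e p V A (pairBits w x) = [true] ↔ (dec w).length = 2 ^ x.length ∧
      (∀ i < 2 ^ x.length, (dec w).getD i [] ≠ [] → ((dec w).getD i []).length = 2 ^ p.eval x.length ∧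
        V (pairBits ((dec w).getD i []) (bitsOf x.length i)) = [true]) ∧
      ((Finset.range (2 ^ x.length)).filter (fun i => (dec w).getD i [] ≠ [])).card = c ∧
      (dec w).getD (valB x) [] = [] := by
  unfold ver fin
  simp only [unpair_pairBits]
  rw [cs_pair R e w x hw, codes_eq hA hc, ite_iff]
  set l := dec w with hl
  have hz : w.length ≤ (pairBits w x).length := by rw [length_pairBits]; omega
  by_cases h1 : l.length = 2 ^ x.length
  · have h2 : ((l.zip ((List.range (pairBits w x).length).map (fun i =>
        decide (V (pairBits (l.getD i []) (bo x i)) = [true])))).filter (fun u =>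
          decide (u.1 ≠ []) && !(decide (u.1.length = 2 ^ p.eval x.length) && u.2)) = []) ↔
        (∀ i < 2 ^ x.length, l.getD i [] ≠ [] → (l.getD i []).length = 2 ^ p.eval x.length ∧
        V (pairBits (l.getD i []) (bitsOf x.length i)) = [true]) := by
      rw [List.filter_eq_nil_iff]
      constructor
      · intro h i hi hne
        have hi' : i < l.length := by rw [h1]; exact hi
        have h3 := h ((l.zip ((List.range (pairBits w x).length).map (fun i =>
          decide (V (pairBits (l.getD i []) (bo x i)) = [true]))))[i]'(by
            simp only [List.length_zip, List.length_map, List.length_range]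
            omega)) (List.getElem_mem _)
        simp only [List.getElem_zip, List.getElem_map, List.getElem_range] at h3
        rw [List.getD_eq_getElem _ _ hi'] at hne ⊢
        rw [List.getD_eq_getElem _ _ hi', bo_eq x hi] at h3
        simp only [ne_eq, hne, not_false_eq_true, decide_true, Bool.true_and, Bool.not_eq_true',
          Bool.not_eq_false, Bool.and_eq_true, decide_eq_true_eq] at h3
        exact h3
      · intro h u hu
        obtain ⟨i, hi, rfl⟩ := List.mem_iff_getElem.1 hu
        simp only [List.length_zip, List.length_map, List.length_range] at hi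
        have hi' : i < l.length := by omega
        have h3 := h i (by omega)
        simp only [List.getElem_zip, List.getElem_map, List.getElem_range]
        rw [List.getD_eq_getElem _ _ hi'] at h3 ⊢
        rw [bo_eq x (by omega)]
        by_cases hne : l[i] = []
        · simp [hne]
        · obtain ⟨h4, h5⟩ := h3 hne
          simp [h4, h5]
    have h3 : (l.filter (fun u => decide (u ≠ []))).length =
        ((Finset.range (2 ^ x.length)).filter (fun i => l.getD i [] ≠ [])).card := by
      rw [filter_length, h1]
      congr 1
      apply Finset.filter_congr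
      intro i _
      simp
    rw [h2, h3]
  · constructor
    · exact fun h => absurd h.1 h1
    · exact fun h => absurd h.1 h1

theorem isNEXP_compl {R : ℕ → Polynomial ℕ} {e : ℕ} {p : Polynomial ℕ} {M : Alg}
    {V : List Bool → List Bool} {A : Oracle} (hM : ∀ x, M.out A x = some (V x))
    (hA : ∀ n, ∀ i ≤ n, A (xcode R e n i) = (bitsOf (n + 1) (cens M p A n)).getD i false) :
    IsNEXP A (lng M p A)ᶜ := by
  classical
  have hlng : ∀ x, x ∈ lng M p A ↔ ∃ w : List Bool, w.length = 2 ^ p.eval x.length ∧
      V (pairBits w x) = [true] := by
    intro x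
    unfold lng
    simp only [Set.mem_ofPred_eq, hM, Option.some.injEq]
  refine ⟨ver R e p V A, R e + p + Polynomial.X + Polynomial.C 6, isFP_ver R e p ⟨M, hM⟩,
    fun x => ?_⟩
  have hp' : (R e + p + Polynomial.X + Polynomial.C 6).eval x.length =
      (R e).eval x.length + p.eval x.length + x.length + 6 := by simp
  rw [hp']
  set N := (R e).eval x.length + p.eval x.length + x.length + 6 with hN
  have hb1 : 2 ^ (R e).eval x.length ≤ 2 ^ N := Nat.pow_le_pow_right (by norm_num) (by omega)
  have hb2 : 2 ^ x.length ≤ 2 ^ N := Nat.pow_le_pow_right (by norm_num) (by omega)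
  constructor
  · intro hx
    -- the list of all certificates
    set cert : ℕ → List Bool := fun i =>
      if h : ∃ w : List Bool, w.length = 2 ^ p.eval (bitsOf x.length i).length ∧
        V (pairBits w (bitsOf x.length i)) = [true] then h.choose else [] with hcert
    have hc1 : ∀ i, cert i ≠ [] → (cert i).length = 2 ^ p.eval x.length ∧
        V (pairBits (cert i) (bitsOf x.length i)) = [true] := by
      intro i hi
      simp only [hcert] at hi ⊢
      by_cases h : ∃ w : List Bool, w.length = 2 ^ p.eval (bitsOf x.length i).length ∧
        V (pairBits w (bitsOf x.length i)) = [true]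
      · rw [dif_pos h]
        exact ⟨h.choose_spec.1.trans (by rw [length_bitsOf]), h.choose_spec.2⟩
      · rw [dif_neg h] at hi
        exact absurd rfl hi
    have hc2 : ∀ i, cert i ≠ [] ↔ bitsOf x.length i ∈ lng M p A := by
      intro i
      rw [hlng]
      simp only [hcert]
      by_cases h : ∃ w : List Bool, w.length = 2 ^ p.eval (bitsOf x.length i).length ∧
        V (pairBits w (bitsOf x.length i)) = [true]
      · rw [dif_pos h]
        refine ⟨fun _ => h, fun _ h3 => ?_⟩
        have h2 := h.choose_spec.1
        have h4 : 0 < 2 ^ p.eval (bitsOf x.length i).length := by positivity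
        rw [h3, List.length_nil] at h2
        omega
      · rw [dif_neg h]
        exact ⟨fun h' => absurd rfl h', fun h' => absurd h' h⟩
    have hc3 : ∀ i, (cert i).length ≤ 2 ^ p.eval x.length := by
      intro i
      by_cases h : cert i = []
      · rw [h]; simp
      · exact (hc1 i h).1.le
    set l : List (List Bool) := (List.range (2 ^ x.length)).map cert with hl
    have hsz : sz l ≤ 2 ^ x.length * (4 * 2 ^ p.eval x.length + 2) + 1 := by
      have h1 := sz_le_length_mul l (4 * 2 ^ p.eval x.length + 1) (by
        intro b hb
        rw [hl, List.mem_map] at hb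
        obtain ⟨i, _, rfl⟩ := hb
        have h2 := sz_listBool_le (cert i)
        have h3 := hc3 i
        omega)
      have h2 : l.length = 2 ^ x.length := by simp [hl]
      rw [h2] at h1
      exact h1
    have hsz2 : 2 * sz l + 1 ≤ 2 ^ N := by
      have e1 : 2 ^ N = 2 ^ (R e).eval x.length * 2 ^ p.eval x.length * 2 ^ x.length * 64 := by
        rw [hN, pow_add, pow_add, pow_add]
        norm_num
      have e2 : 1 ≤ 2 ^ (R e).eval x.length := Nat.one_le_two_pow
      have e3 : 1 ≤ 2 ^ p.eval x.length := Nat.one_le_two_pow
      have e4 : 1 ≤ 2 ^ x.length := Nat.one_le_two_pow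
      have e5 : 2 ^ x.length * 2 ^ p.eval x.length * 64 ≤ 2 ^ N := by
        rw [e1]
        calc 2 ^ x.length * 2 ^ p.eval x.length * 64 =
            1 * 2 ^ p.eval x.length * 2 ^ x.length * 64 := by ring
          _ ≤ _ := by gcongr
      have e6 : 2 ^ x.length ≤ 2 ^ x.length * 2 ^ p.eval x.length := Nat.le_mul_of_pos_right _ e3
      have e7 : 2 * sz l + 1 ≤ 2 * (2 ^ x.length * (4 * 2 ^ p.eval x.length + 2) + 1) + 1 := by
        omega
      have e8 : 2 * (2 ^ x.length * (4 * 2 ^ p.eval x.length + 2) + 1) + 1 =
          8 * (2 ^ x.length * 2 ^ p.eval x.length) + 4 * 2 ^ x.length + 3 := by ring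
      omega
    set w : List Bool := pairBits (bits l) (List.replicate (2 ^ N - (2 * sz l + 1)) false) with hw
    have hwl : w.length = 2 ^ N := by
      rw [hw, length_pairBits, bits_length, List.length_replicate]
      omega
    have hdec : dec w = l := by
      rw [hw]
      unfold dec
      rw [unpair_pairBits, unbits_bits]
      rfl
    refine ⟨w, hwl, ?_⟩
    rw [ver_iff (hA x.length) (cens_le M p A x.length) (by omega) (by omega), hdec]
    have hget : ∀ i < 2 ^ x.length, l.getD i [] = cert i := by
      intro i hi
      rw [List.getD_eq_getElem _ _ (by simpa [hl] using hi)]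
      simp [hl]
    refine ⟨by simp [hl], ?_, ?_, ?_⟩
    · intro i hi hne
      rw [hget i hi] at hne ⊢
      exact hc1 i hne
    · unfold cens
      congr 1
      ext i
      simp only [Finset.mem_filter, Finset.mem_range]
      constructor
      · rintro ⟨hi, h⟩
        rw [hget i hi] at h
        exact ⟨hi, (hc2 i).1 h⟩
      · rintro ⟨hi, h⟩
        refine ⟨hi, ?_⟩
        rw [hget i hi]
        exact (hc2 i).2 h
    · rw [hget _ (valB_lt x)]
      by_contra h
      apply hx
      have := (hc2 (valB x)).1 h
      rwa [bitsOf_valB] at this
  · rintro ⟨w, hw, hv⟩ hx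
    rw [ver_iff (hA x.length) (cens_le M p A x.length) (by omega) (by omega)] at hv
    obtain ⟨_, h2, h3, h4⟩ := hv
    have hsub : (Finset.range (2 ^ x.length)).filter (fun i => (dec w).getD i [] ≠ []) ⊆
        (Finset.range (2 ^ x.length)).filter (fun i => bitsOf x.length i ∈ lng M p A) := by
      intro i hi
      simp only [Finset.mem_filter, Finset.mem_range] at hi ⊢
      refine ⟨hi.1, ?_⟩
      rw [hlng]
      obtain ⟨h5, h6⟩ := h2 i hi.1 hi.2
      exact ⟨_, by rw [length_bitsOf]; exact h5, h6⟩
    have heq := Finset.eq_of_subset_of_card_le hsub (by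
      rw [h3]
      exact le_of_eq (by unfold cens; congr))
    have hmem : valB x ∈ (Finset.range (2 ^ x.length)).filter
        (fun i => bitsOf x.length i ∈ lng M p A) := by
      simp only [Finset.mem_filter, Finset.mem_range]
      exact ⟨valB_lt x, by rw [bitsOf_valB]; exact hx⟩
    rw [← heq] at hmem
    simp only [Finset.mem_filter] at hmem
    exact hmem.2 h4

end Cen

end Pool.Agent.H620R2.Gauge
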